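import Mathlib
import Pool.Agent.Q106.PK.Stm

/-!
# Project PK (helper106), job COVER
-/

namespace Pool.Agent.Q106.PK

/-- The difference of two adjacent cells is a unit vector. -/
theorem cover_unit (a b : ℤ × ℤ) (h : CAdj a b) :
    b - a ∈ ({(1, 0), (-1, 0), (0, 1), (0, -1)} : Finset (ℤ × ℤ)) := by
  obtain ⟨a1, a2⟩ := a
  obtain ⟨b1, b2⟩ := b
  simp only [Finset.mem_insert, Finset.mem_singleton, Prod.mk_sub_mk, Prod.mk.injEq]
  unfold CAdj at h
  simp only at h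
  omega

/-- Translates of unions. -/
theorem cover_tr_union (v : ℤ × ℤ) (X Y : Finset (ℤ × ℤ)) : tr v (X ∪ Y) = tr v X ∪ tr v Y := by
  ext p
  simp only [mem_tr, Finset.mem_union]

theorem t_COVER (h1 : S_SPLIT) (h2 : S_BOXA) : S_COVER := by
  intro n P hP hn
  obtain ⟨X₀, Y₀, hd, hu, hX, hY, hk1, hk2, a, ha, b, hb, hab⟩ := h1 n P hP hn
  obtain ⟨u, hu1, -⟩ := h2 X₀ hX.1
  obtain ⟨u', hu1', -⟩ := h2 Y₀ hY.1
  have hsum : X₀.card + Y₀.card = n := by
    rw [← Finset.card_union_of_disjoint hd, hu, hP.1]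
  have hXpos : 0 < X₀.card := Finset.card_pos.mpr hX.1
  have hYpos : 0 < Y₀.card := Finset.card_pos.mpr hY.1
  refine ⟨X₀.card, tr u X₀, tr u' Y₀, a + u, b + u', b - a, -u, hXpos, by omega, hk1, hk2,
    ⟨card_tr _ _, conn_tr u hX⟩, hu1, ⟨by rw [card_tr]; omega, conn_tr u' hY⟩, hu1', ?_, ?_,
    cover_unit a b hab, ?_⟩
  · rw [mem_tr]; simpa using ha
  · rw [mem_tr]; simpa using hb
  · rw [cover_tr_union, tr_tr, tr_tr, tr_tr, neg_add_cancel, tr_zero]
    have h0 : -u + (a + u + (b - a) - (b + u')) + u' = 0 := by abel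
    rw [h0, tr_zero, hu]

end Pool.Agent.Q106.PK
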