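import Mathlib
import Pool.Agent.Q106.PK.Stm

/-!
# Project PK (helper106), job FIN
-/

namespace Pool.Agent.Q106.PK

theorem t_FIN (h : S_BOX) : S_FIN := by
  intro n
  refine Set.Finite.subset
    (Finset.finite_toSet ((Finset.Ico (0:ℤ) n ×ˢ Finset.Ico (0:ℤ) n).powerset)) ?_
  rintro P ⟨h1, h2⟩
  rw [Finset.mem_coe, Finset.mem_powerset]
  intro p hp
  have h3 := h n P h1 h2 p hp
  have h4 := h2.1 p hp
  rw [Finset.mem_product, Finset.mem_Ico, Finset.mem_Ico]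
  exact ⟨⟨h4.1, h3.1⟩, ⟨h4.2, h3.2⟩⟩

end Pool.Agent.Q106.PK
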