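import Mathlib
import Pool.Agent.Q106.PK.Stm

/-!
# Project PK (helper106), job SPLIT
-/

namespace Pool.Agent.Q106.PK

/-- A splitting of `P` whose larger part has `m` cells. -/
def split_ok (P : Finset (ℤ × ℤ)) (m : ℕ) : Prop :=
  ∃ X Y : Finset (ℤ × ℤ), Disjoint X Y ∧ X ∪ Y = P ∧ Conn X ∧ Conn Y ∧ X.card ≤ Y.card ∧ Y.card = m ∧
    ∃ a ∈ X, ∃ b ∈ Y, CAdj a b

/-- A splitting into two parts, put in order of size. -/
theorem split_mk (P X Y : Finset (ℤ × ℤ)) (a b : ℤ × ℤ) (h1 : Disjoint X Y) (h2 : X ∪ Y = P)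
    (h3 : Conn X) (h4 : Conn Y) (ha : a ∈ X) (hb : b ∈ Y) (hab : CAdj a b) :
    split_ok P (max X.card Y.card) := by
  rcases le_total X.card Y.card with h | h
  · exact ⟨X, Y, h1, h2, h3, h4, h, (max_eq_right h).symm, a, ha, b, hb, hab⟩
  · exact ⟨Y, X, h1.symm, by rw [Finset.union_comm]; exact h2, h4, h3, h, (max_eq_left h).symm,
      b, hb, a, ha, cadj_symm hab⟩

theorem t_SPLIT (h1 : S_THIRD) (h2 : S_LEAF) (h3 : S_UNI) (h4 : S_CUT) : S_SPLIT := by
  classical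
  intro n P hP hn
  have hcard : P.card = n := hP.1
  obtain ⟨X₀, Y₀, hd, hu, hX₀, hY₀, a₀, ha₀, b₀, hb₀, hab₀⟩ := h2 P hP.2 (by omega)
  have hex : ∃ m, split_ok P m := ⟨_, split_mk P X₀ Y₀ a₀ b₀ hd hu hX₀ hY₀ ha₀ hb₀ hab₀⟩
  obtain ⟨X, Y, hdj, hun, hX, hY, hle, hm, a, ha, b, hb, hab⟩ := Nat.find_spec hex
  have hsum : X.card + Y.card = n := by
    rw [← Finset.card_union_of_disjoint hdj, hun, hcard]
  have hXpos : 0 < X.card := Finset.card_pos.mpr hX.1
  refine ⟨X, Y, hdj, hun, hX, hY, ?_, by omega, a, ha, b, hb, hab⟩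
  by_contra hcon
  push Not at hcon
  have haY : a ∉ Y := Finset.disjoint_left.mp hdj ha
  obtain ⟨C, hC1, hC2, hC3, hC4⟩ := h1 Y a b hY (by omega) hb haY hab
  have hCY : C ⊆ Y := hC1.trans (Finset.erase_subset _ _)
  have hbC : b ∉ C := fun hh => (Finset.ne_of_mem_erase (hC1 hh)) rfl
  have hCne : C ≠ Y := fun hh => hbC (hh ▸ hb)
  obtain ⟨c, hc, d, hd', hdC, hcd⟩ := (h4 Y hY.1).mp hY C hCY hC2.1 hCne
  have hrest : Conn (X ∪ (Y \ C)) :=
    h3 X (Y \ C) a b hX hC3 ha (Finset.mem_sdiff.mpr ⟨hb, hbC⟩) hab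
  have hdisj : Disjoint C (X ∪ (Y \ C)) := by
    rw [Finset.disjoint_union_right]
    exact ⟨(Finset.disjoint_of_subset_right hCY hdj).symm, Finset.disjoint_sdiff⟩
  have hunion : C ∪ (X ∪ (Y \ C)) = P := by
    rw [← hun]
    ext x
    simp only [Finset.mem_union, Finset.mem_sdiff]
    constructor
    · rintro (h | h | h)
      · exact Or.inr (hCY h)
      · exact Or.inl h
      · exact Or.inr h.1
    · rintro (h | h)
      · exact Or.inr (Or.inl h)
      · by_cases hx : x ∈ C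
        · exact Or.inl hx
        · exact Or.inr (Or.inr ⟨h, hx⟩)
  have hnew : split_ok P (max C.card (X ∪ (Y \ C)).card) :=
    split_mk P C (X ∪ (Y \ C)) c d hdisj hunion hC2 hrest hc
      (Finset.mem_union_right _ (Finset.mem_sdiff.mpr ⟨hd', hdC⟩)) hcd
  have hCcard : C.card < Y.card := by
    have h5 := Finset.card_le_card hC1
    rw [Finset.card_erase_of_mem hb] at h5
    have h6 : 0 < Y.card := Finset.card_pos.mpr hY.1
    omega
  have hrcard : C.card + (X ∪ (Y \ C)).card = n := by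
    rw [← Finset.card_union_of_disjoint hdisj, hunion, hcard]
  have hmin := Nat.find_min' hex hnew
  rw [← hm] at hmin
  rcases le_max_iff.mp hmin with h | h
  · omega
  · omega

end Pool.Agent.Q106.PK
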