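import Mathlib
import Pool.Agent.Q106.PK.Stm

/-!
# Project PK (helper106), job THIRD
-/

namespace Pool.Agent.Q106.PK

/-- A closed set contains everything reachable from it inside a connected set. -/
theorem third_reach (P C D : Finset (ℤ × ℤ)) (c q : ℤ × ℤ) (hC : Conn C) (hc : c ∈ C) (hq : q ∈ C)
    (hCP : C ⊆ P) (hcD : c ∈ D) (hD : ∀ x ∈ D, ∀ d ∈ P, CAdj x d → d ∈ D) : q ∈ D := by
  have key := hC.2 c hc q hq
  induction key with
  | refl => exact hcD
  | tail _ hst ih =>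
    exact hD _ (ih hst.1) _ (hCP hst.2.1) hst.2.2

/-- The neighbours of a cell. -/
theorem third_nb (a b : ℤ × ℤ) (h : CAdj a b) :
    a ∈ ({(b.1 + 1, b.2), (b.1 - 1, b.2), (b.1, b.2 + 1), (b.1, b.2 - 1)} : Finset (ℤ × ℤ)) := by
  obtain ⟨a1, a2⟩ := a
  obtain ⟨b1, b2⟩ := b
  simp only [Finset.mem_insert, Finset.mem_singleton, Prod.mk.injEq]
  unfold CAdj at h
  simp only at h
  omega

theorem t_THIRD (h : S_COMP) (_h1 : S_CUT) : S_THIRD := by
  classical
  intro Y a b hY hcard hb ha hab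
  have hex : ∀ q : ℤ × ℤ, ∃ C : Finset (ℤ × ℤ), q ∈ Y.erase b → (q ∈ C ∧ C ⊆ Y.erase b ∧ Conn C ∧
      Conn (Y \ C) ∧ (∃ c ∈ C, CAdj c b) ∧ (∀ c ∈ C, ∀ d ∈ Y.erase b, CAdj c d → d ∈ C)) := by
    intro q
    by_cases hq : q ∈ Y.erase b
    · obtain ⟨C, hC⟩ := h Y b q hY hb (Finset.mem_of_mem_erase hq) (Finset.ne_of_mem_erase hq)
      exact ⟨C, fun _ => hC⟩
    · exact ⟨∅, fun hh => absurd hh hq⟩
  choose C hC using hex
  set N : Finset (ℤ × ℤ) := (Y.erase b).filter (fun c => CAdj c b) with hN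
  have hNcard : N.card ≤ 3 := by
    have hsub : N ⊆ ({(b.1 + 1, b.2), (b.1 - 1, b.2), (b.1, b.2 + 1), (b.1, b.2 - 1)} :
        Finset (ℤ × ℤ)).erase a := by
      intro c hc
      rw [hN, Finset.mem_filter] at hc
      rw [Finset.mem_erase]
      refine ⟨?_, third_nb c b hc.2⟩
      rintro rfl
      exact ha (Finset.mem_of_mem_erase hc.1)
    refine (Finset.card_le_card hsub).trans ?_
    rw [Finset.card_erase_of_mem (third_nb a b hab)]
    have h4 : ({(b.1 + 1, b.2), (b.1 - 1, b.2), (b.1, b.2 + 1), (b.1, b.2 - 1)} :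
        Finset (ℤ × ℤ)).card ≤ 4 := Finset.card_le_four
    omega
  have hcov : Y.erase b ⊆ N.biUnion C := by
    intro q hq
    obtain ⟨h1, h2, h3, h4, ⟨c, hc, hcb⟩, h6⟩ := hC q hq
    have hcY : c ∈ Y.erase b := h2 hc
    obtain ⟨g1, g2, g3, g4, g5, g6⟩ := hC c hcY
    rw [Finset.mem_biUnion]
    refine ⟨c, ?_, ?_⟩
    · rw [hN, Finset.mem_filter]; exact ⟨hcY, hcb⟩
    · exact third_reach (Y.erase b) (C q) (C c) c q h3 hc h1 h2 g1 g6
  have hercard : (Y.erase b).card = Y.card - 1 := Finset.card_erase_of_mem hb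
  have hne : N.Nonempty := by
    rw [Finset.nonempty_iff_ne_empty]
    intro h0
    rw [h0, Finset.biUnion_empty, Finset.subset_empty] at hcov
    rw [hcov, Finset.card_empty] at hercard
    omega
  obtain ⟨c, hcN, hmax⟩ := Finset.exists_max_image N (fun c => (C c).card) hne
  have hcY : c ∈ Y.erase b := (Finset.mem_filter.mp hcN).1
  obtain ⟨g1, g2, g3, g4, g5, g6⟩ := hC c hcY
  refine ⟨C c, g2, g3, g4, ?_⟩
  have h5 : (Y.erase b).card ≤ N.card * (C c).card :=
    (Finset.card_le_card hcov).trans (Finset.card_biUnion_le_card_mul N C _ hmax)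
  have h6 : N.card * (C c).card ≤ 3 * (C c).card := Nat.mul_le_mul_right _ hNcard
  omega

end Pool.Agent.Q106.PK
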