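import Mathlib
import Pool.Agent.Q2.PM.Stm

/-! Project PM (helper2), job C3: no odd extension of T. -/

set_option autoImplicit false

namespace Q299.PM_C3

open Subgroup
open Q2.PM
open Q2.TN (IsPNil IsSyl IsChief Nm)

variable {G : Type} [Group G]

theorem le_syl [Finite G] {P T : Subgroup G} (hP : IsSyl 2 P) (hT : T.Normal)
    (h2 : IsPGroup 2 T) : T ≤ P := by
  have hs : IsPGroup 2 ↥(T ⊔ P) := IsPGroup.to_sup_of_normal_left h2 hP.1
  have h3 : T ⊔ P = P := (hP.1.toSylow hP.2).is_maximal' hs le_sup_right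
  rw [← h3]
  exact le_sup_left

theorem card_rel {A B : Subgroup G} (h : A ≤ B) :
    Nat.card A * A.relIndex B = Nat.card B := by
  have := relIndex_mul_relIndex (⊥ : Subgroup G) A B bot_le h
  rwa [relIndex_bot_left, relIndex_bot_left] at this

theorem chief_bot {T : Subgroup G} (hT : Q2.PM.IsMin T) : IsChief ⊥ T :=
  ⟨inferInstance, hT.1, bot_lt_iff_ne_bot.2 hT.2.1, fun L hL _ h => hT.2.2.2 L hL h⟩

theorem central_small {T : Subgroup G} (hT : Q2.PM.IsMin T) {z : G} (hz : z ∈ T) (h1 : z ≠ 1)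
    (h2 : z * z = 1) (hc : ∀ g : G, g * z = z * g) : Nat.card T = 2 := by
  have hn : (zpowers z).Normal := by
    refine ⟨?_⟩
    rintro _ ⟨k, rfl⟩ g
    have hcom : Commute g (z ^ k) := (show Commute g z from hc g).zpow_right k
    have : g * z ^ k * g⁻¹ = z ^ k := by rw [hcom.eq, mul_inv_cancel_right]
    change g * z ^ k * g⁻¹ ∈ _
    rw [this]
    exact ⟨k, rfl⟩
  rcases hT.2.2.2 _ hn (zpowers_le.2 hz) with h | h
  · exact absurd (zpowers_eq_bot.1 h) h1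
  · rw [← h, Nat.card_zpowers]
    exact orderOf_eq_prime (by rw [sq, h2]) h1

theorem idx2 [Finite G] {T₁ T : Subgroup G} (h : T₁ ≤ T) (hc : Nat.card T = 2 * Nat.card T₁)
    {a b : G} (ha : a ∈ T) (ha1 : a ∉ T₁) (hb : b ∈ T) (hb1 : b ∉ T₁) : a * b ∈ T₁ := by
  have h1 := card_rel h
  have h2 : 0 < Nat.card T₁ := Nat.card_pos
  have h3 : T₁.relIndex T = 2 := by
    rw [hc, mul_comm 2] at h1
    exact Nat.eq_of_mul_eq_mul_left h2 h1
  have h4 : (T₁.subgroupOf T).index = 2 := h3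
  have h5 := mul_mem_iff_of_index_two h4 (a := ⟨a, ha⟩) (b := ⟨b, hb⟩)
  rw [mem_subgroupOf, mem_subgroupOf, mem_subgroupOf] at h5
  exact h5.2 ⟨fun h => absurd h ha1, fun h => absurd h hb1⟩

theorem pow_card {A : Subgroup G} [Finite G] (h : IsPGroup 2 A) : ∃ n, Nat.card A = 2 ^ n :=
  IsPGroup.iff_card.mp h

theorem pgrp {A : Subgroup G} [Finite G] {n : ℕ} (h : Nat.card A = 2 ^ n) : IsPGroup 2 A :=
  IsPGroup.iff_card.mpr ⟨n, h⟩

/-- the product of two subgroups, the second one normalizing the first one -/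
def prodSub (A B : Subgroup G) (h : ∀ b ∈ B, ∀ a ∈ A, b * a * b⁻¹ ∈ A) : Subgroup G where
  carrier := {x | ∃ a ∈ A, ∃ b ∈ B, x = a * b}
  mul_mem' := by
    rintro _ _ ⟨a, ha, b, hb, rfl⟩ ⟨a', ha', b', hb', rfl⟩
    exact ⟨a * (b * a' * b⁻¹), A.mul_mem ha (h b hb a' ha'), b * b', B.mul_mem hb hb', by group⟩
  one_mem' := ⟨1, A.one_mem, 1, B.one_mem, by simp⟩
  inv_mem' := by
    rintro _ ⟨a, ha, b, hb, rfl⟩
    have := h b⁻¹ (B.inv_mem hb) a⁻¹ (A.inv_mem ha)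
    rw [inv_inv] at this
    exact ⟨b⁻¹ * a⁻¹ * b, this, b⁻¹, B.inv_mem hb, by group⟩

theorem c3 (h4 : S_B4) (h5 : S_B5) (h12 : S_B12) (c1 : S_C1) (c2 : S_C2) : S_C3 := by
  intro k G _ _ P T F env hT hF hTF hodd
  by_contra hne
  obtain ⟨hT2, S, hSP, hST, hTS⟩ := h12 G P T F env.syl hT hF hTF hodd hne env.odd
  obtain ⟨T₁, hT₁, hcard, hN⟩ := h4 G T P hT.1 hT.2.2.1 hT.2.1 env.syl.1
  have hn1 : ∀ b ∈ S, ∀ a ∈ T₁, b * a * b⁻¹ ∈ T₁ := by
    intro b hb a ha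
    have := hN (hSP hb)
    rw [mem_normalizer_iff] at this
    exact (this a).1 ha
  have hn2 : ∀ b ∈ S, ∀ a ∈ T, b * a * b⁻¹ ∈ T := fun b _ a ha => hT.1.conj_mem a ha b
  have hTP : T ≤ P := le_syl env.syl hT.1 hT.2.2.1
  set C := prodSub T₁ S hn1 with hC
  have hT₁C : T₁ ≤ C := fun t ht => ⟨t, ht, 1, S.one_mem, by simp⟩
  have hCP : C ≤ P := by
    rintro _ ⟨a, ha, b, hb, rfl⟩
    exact P.mul_mem (hTP (hT₁ ha)) (hSP hb)
  have hinf : ∀ x ∈ C, x ∈ T → x ∈ T₁ := by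
    rintro _ ⟨a, ha, b, hb, rfl⟩ hx
    have hb' : b ∈ T := by
      have := T.mul_mem (T.inv_mem (hT₁ ha)) hx
      rwa [inv_mul_cancel_left] at this
    have hb1 : b ∈ S ⊓ T := ⟨hb, hb'⟩
    rw [hST, mem_bot] at hb1
    rw [hb1, mul_one]
    exact ha
  -- cardinalities
  have hc1 : Nat.card T₁ * Nat.card S ≤ Nat.card C := by
    rw [← Nat.card_prod]
    apply Nat.card_le_card_of_injective (fun p : T₁ × S => (⟨p.1 * p.2, p.1, p.1.2, p.2, p.2.2, rfl⟩ : C))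
    rintro ⟨⟨a, ha⟩, ⟨b, hb⟩⟩ ⟨⟨a', ha'⟩, ⟨b', hb'⟩⟩ hab
    have hab' : a * b = a' * b' := congrArg (fun x : C => (x : G)) hab
    have e1 : a'⁻¹ * a = b' * b⁻¹ := by
      have : a = a' * b' * b⁻¹ := by rw [← hab']; group
      rw [this]; group
    have hm : a'⁻¹ * a ∈ S ⊓ T :=
      ⟨by rw [e1]; exact S.mul_mem hb' (S.inv_mem hb),
        T.mul_mem (T.inv_mem (hT₁ ha')) (hT₁ ha)⟩
    rw [hST, mem_bot] at hm
    have e2 : a = a' := by
      have := inv_mul_eq_one.1 hm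
      exact this.symm
    have e3 : b = b' := by
      rw [hm] at e1
      exact (mul_inv_eq_one.1 e1.symm).symm
    subst e2; subst e3; rfl
  have hc2 : Nat.card P ≤ Nat.card T * Nat.card S := by
    rw [← Nat.card_prod]
    have hPD : P ≤ prodSub T S hn2 := by
      rw [← hTS]
      exact sup_le (fun t ht => ⟨t, ht, 1, S.one_mem, by simp⟩)
        (fun s hs => ⟨1, T.one_mem, s, hs, by simp⟩)
    apply Nat.card_le_card_of_surjective
      (fun p : T × S => (⟨p.1 * p.2, P.mul_mem (hTP p.1.2) (hSP p.2.2)⟩ : P))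
    rintro ⟨x, hx⟩
    obtain ⟨a, ha, b, hb, rfl⟩ := hPD hx
    exact ⟨(⟨a, ha⟩, ⟨b, hb⟩), rfl⟩
  obtain ⟨n, hn⟩ := pow_card env.syl.1
  have hkn : k < n := by
    have := env.card_lt
    rw [hn] at this
    exact (Nat.pow_lt_pow_iff_right (by norm_num)).1 this
  have hc3 : 2 ^ (k + 1) ≤ Nat.card P := by
    rw [hn]
    exact Nat.pow_le_pow_right (by norm_num) hkn
  have hc4 : 2 ^ k ≤ Nat.card C := by
    rw [hcard, mul_assoc] at hc2
    rw [pow_succ] at hc3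
    omega
  have hc5 : Nat.card T₁ ≤ 2 ^ k := (card_le_of_le hT₁).trans (c2 k G P T env hT)
  obtain ⟨H, hTH, hHC, hHcard⟩ := h5 k G T₁ C hT₁C (env.syl.1.to_le hCP) hc5 hc4
  have hHT : H ⊓ T = T₁ := by
    apply le_antisymm
    · exact fun x hx => hinf x (hHC hx.1) hx.2
    · exact le_inf hTH hT₁
  exact hT2 (c1 k G P T T₁ H env hT hT₁ hcard hN (hHC.trans hCP) hHcard hHT)

end Q299.PM_C3
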