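import Mathlib
import Pool.Agent.Q2.PM.Stm

/-! Project PM (helper2), job C4: the order of T. -/

set_option autoImplicit false

namespace Q299.PM_C4

open Subgroup
open Q2.PM
open Q2.TN (IsPNil IsSyl IsChief Nm)

variable {G : Type} [Group G]

theorem le_syl [Finite G] {P T : Subgroup G} (hP : IsSyl 2 P) (hT : T.Normal)
    (h2 : IsPGroup 2 T) : T ≤ P := by
  have hs : IsPGroup 2 ↥(T ⊔ P) := IsPGroup.to_sup_of_normal_left h2 hP.1
  have h3 : T ⊔ P = P := (hP.1.toSylow hP.2).is_maximal' hs le_sup_right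
  rw [← h3]
  exact le_sup_left

theorem card_rel {A B : Subgroup G} (h : A ≤ B) :
    Nat.card A * A.relIndex B = Nat.card B := by
  have := relIndex_mul_relIndex (⊥ : Subgroup G) A B bot_le h
  rwa [relIndex_bot_left, relIndex_bot_left] at this

theorem chief_bot {T : Subgroup G} (hT : Q2.PM.IsMin T) : IsChief ⊥ T :=
  ⟨inferInstance, hT.1, bot_lt_iff_ne_bot.2 hT.2.1, fun L hL _ h => hT.2.2.2 L hL h⟩

theorem central_small {T : Subgroup G} (hT : Q2.PM.IsMin T) {z : G} (hz : z ∈ T) (h1 : z ≠ 1)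
    (h2 : z * z = 1) (hc : ∀ g : G, g * z = z * g) : Nat.card T = 2 := by
  have hn : (zpowers z).Normal := by
    refine ⟨?_⟩
    rintro _ ⟨k, rfl⟩ g
    have hcom : Commute g (z ^ k) := (show Commute g z from hc g).zpow_right k
    have : g * z ^ k * g⁻¹ = z ^ k := by rw [hcom.eq, mul_inv_cancel_right]
    change g * z ^ k * g⁻¹ ∈ _
    rw [this]
    exact ⟨k, rfl⟩
  rcases hT.2.2.2 _ hn (zpowers_le.2 hz) with h | h
  · exact absurd (zpowers_eq_bot.1 h) h1
  · rw [← h, Nat.card_zpowers]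
    exact orderOf_eq_prime (by rw [sq, h2]) h1

theorem idx2 [Finite G] {T₁ T : Subgroup G} (h : T₁ ≤ T) (hc : Nat.card T = 2 * Nat.card T₁)
    {a b : G} (ha : a ∈ T) (ha1 : a ∉ T₁) (hb : b ∈ T) (hb1 : b ∉ T₁) : a * b ∈ T₁ := by
  have h1 := card_rel h
  have h2 : 0 < Nat.card T₁ := Nat.card_pos
  have h3 : T₁.relIndex T = 2 := by
    rw [hc, mul_comm 2] at h1
    exact Nat.eq_of_mul_eq_mul_left h2 h1
  have h4 : (T₁.subgroupOf T).index = 2 := h3
  have h5 := mul_mem_iff_of_index_two h4 (a := ⟨a, ha⟩) (b := ⟨b, hb⟩)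
  rw [mem_subgroupOf, mem_subgroupOf, mem_subgroupOf] at h5
  exact h5.2 ⟨fun h => absurd h ha1, fun h => absurd h hb1⟩

theorem pow_card {A : Subgroup G} [Finite G] (h : IsPGroup 2 A) : ∃ n, Nat.card A = 2 ^ n :=
  IsPGroup.iff_card.mp h

theorem pgrp {A : Subgroup G} [Finite G] {n : ℕ} (h : Nat.card A = 2 ^ n) : IsPGroup 2 A :=
  IsPGroup.iff_card.mpr ⟨n, h⟩

theorem c4 (c2 : S_C2) (c3 : S_C3) : S_C4 := by
  intro k G _ _ P T env hT
  obtain ⟨m, hm⟩ := pow_card hT.2.2.1
  have h1 := c2 k G P T env hT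
  rw [hm] at h1
  have h2 : m ≤ k := (Nat.pow_le_pow_iff_right (by norm_num)).1 h1
  have hk := env.two_le
  by_contra hcon
  rw [not_or] at hcon
  have h3 : m + 2 ≤ k := by
    by_contra h
    have : m = k - 1 ∨ m = k := by omega
    rcases this with h | h
    · exact hcon.1 (by rw [hm, h])
    · exact hcon.2 (by rw [hm, h])
  have := hT.1
  obtain ⟨N, hN, hco, j, hj⟩ := env.quo T hT.2.1 m hm h3
  have hsurj := QuotientGroup.mk'_surjective T
  set F := N.comap (QuotientGroup.mk' T) with hF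
  have hFn : F.Normal := hN.comap _
  have hTF : T ≤ F := by
    intro t ht
    rw [hF, mem_comap]
    have : QuotientGroup.mk' T t = 1 := (QuotientGroup.eq_one_iff t).2 ht
    rw [this]
    exact N.one_mem
  have hrel : T.relIndex F = Nat.card N := by
    have e1 : (⊥ : Subgroup (G ⧸ T)).comap (QuotientGroup.mk' T) = T := by
      rw [MonoidHom.comap_bot, QuotientGroup.ker_mk']
    have e2 := relIndex_comap (⊥ : Subgroup (G ⧸ T)) (QuotientGroup.mk' T) F
    rw [e1, relIndex_bot_left, hF, map_comap_eq_self_of_surjective hsurj] at e2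
    exact e2
  have hodd : Odd (T.relIndex F) := by
    rw [hrel]
    exact Nat.coprime_two_right.1 hco
  have hFT := c3 k G P T F env hT hFn hTF hodd
  rw [hFT, relIndex_self] at hrel
  have hcG := card_mul_index N
  rw [← hrel, one_mul, hj] at hcG
  have hGG := card_eq_card_quotient_mul_card_subgroup T
  rw [← hcG, hm, ← pow_add] at hGG
  apply env.nil
  refine ⟨⊥, inferInstance, ?_, j + m, ?_⟩
  · rw [card_bot]; exact Nat.coprime_one_left 2
  · rw [index_bot, hGG]

end Q299.PM_C4
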