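import Pool.Agent.Q88.MD.Stm

set_option autoImplicit false

/-!
# Project MD (helper88), job DBL (helper299)
-/

open MeasureTheory Set Filter Topology
open scoped ENNReal NNReal

namespace Pool.Agent.Q299.MD

open Pool.Agent.Q88.MD

lemma mem_dy_dk (n : ℕ) {x : ℝ} (hx : x ∈ Ico (0 : ℝ) 1) : x ∈ dy n (dk n x) ∧ dk n x < 2 ^ n := by
  have h2 : (0 : ℝ) < 2 ^ n := by positivity
  have h0 : 0 ≤ (2 : ℝ) ^ n * x := mul_nonneg h2.le hx.1
  refine ⟨⟨?_, ?_⟩, ?_⟩
  · rw [div_le_iff₀ h2, mul_comm]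
    exact Nat.floor_le h0
  · rw [lt_div_iff₀ h2, mul_comm x]
    exact Nat.lt_floor_add_one _
  · have h3 : (2 : ℝ) ^ n * x < ((2 ^ n : ℕ) : ℝ) := by
      push_cast
      nlinarith [hx.2]
    exact (Nat.floor_lt h0).2 h3

lemma dk_eq {n k : ℕ} {x : ℝ} (hx : x ∈ dy n k) : dk n x = k := by
  have h2 : (0 : ℝ) < 2 ^ n := by positivity
  obtain ⟨h3, h4⟩ := hx
  rw [div_le_iff₀ h2] at h3
  rw [lt_div_iff₀ h2] at h4
  unfold dk
  rw [Nat.floor_eq_iff (by rw [mul_comm]; exact le_trans (by positivity) h3)]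
  rw [mul_comm]
  exact ⟨h3, h4⟩

lemma near {n k l : ℕ} {y z : ℝ} (hy : y ∈ dy n k) (hz : z ∈ dy n l)
    (h : |y - z| ≤ 2 * (1 / 2) ^ n) : l ≤ k + 2 ∧ k ≤ l + 2 := by
  have h2 : (0 : ℝ) < 2 ^ n := by positivity
  obtain ⟨h3, h4⟩ := hy
  obtain ⟨h5, h6⟩ := hz
  rw [div_le_iff₀ h2] at h3 h5
  rw [lt_div_iff₀ h2] at h4 h6
  obtain ⟨h7, h8⟩ := abs_le.1 h
  have h9 : (2 * (1 / 2 : ℝ) ^ n) * 2 ^ n = 2 := by
    rw [one_div_pow]
    field_simp
  have h10 : (y - z) * 2 ^ n ≤ 2 := by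
    have := mul_le_mul_of_nonneg_right h8 h2.le
    linarith
  have h11 : -2 ≤ (y - z) * 2 ^ n := by
    have := mul_le_mul_of_nonneg_right h7 h2.le
    linarith
  constructor
  · have : (l : ℝ) < k + 3 := by linarith
    have : l < k + 3 := by exact_mod_cast this
    omega
  · have : (k : ℝ) < l + 3 := by linarith
    have : k < l + 3 := by exact_mod_cast this
    omega

lemma card_near (m k : ℕ) : ((Finset.range m).filter fun l => l ≤ k + 2 ∧ k ≤ l + 2).card ≤ 5 := by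
  have h : ((Finset.range m).filter fun l => l ≤ k + 2 ∧ k ≤ l + 2) ⊆ Finset.Icc (k - 2) (k + 2) := by
    intro l hl
    rw [Finset.mem_filter] at hl
    rw [Finset.mem_Icc]
    omega
  refine (Finset.card_le_card h).trans ?_
  rw [Nat.card_Icc]
  omega

lemma two_mul_le (a b : ℝ≥0∞) : 2 * (a * b) ≤ a ^ 2 + b ^ 2 := by
  rcases eq_or_ne a ⊤ with rfl | ha
  · simp
  rcases eq_or_ne b ⊤ with rfl | hb
  · simp
  lift a to ℝ≥0 using ha
  lift b to ℝ≥0 using hb
  have h : 2 * (a * b) ≤ a ^ 2 + b ^ 2 := by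
    rw [← mul_assoc]
    exact_mod_cast two_mul_le_add_sq (a : ℝ) b
  exact_mod_cast h

theorem dbl : S_dbl := by
  intro om hom h0 n
  set a : ℕ → ℝ≥0∞ := fun k => om (dy n k) with ha
  set Nr : ℕ → Finset ℕ := fun k => (Finset.range (2 ^ n)).filter fun l => l ≤ k + 2 ∧ k ≤ l + 2 with hNr
  have hmeas : ∀ k, MeasurableSet (dy n k) := fun k => measurableSet_Ico
  have hae : ∀ᵐ x ∂om, x ∈ Ico (0 : ℝ) 1 := by
    rw [ae_iff]
    exact h0
  have h1 : ∀ᵐ y ∂om, (∫⁻ z, {w : ℝ | w ≤ 2 * (1 / 2) ^ n}.indicator (fun _ => (1 : ℝ≥0∞)) |y - z| ∂om) ≤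
      ∑ k ∈ Finset.range (2 ^ n), (dy n k).indicator (fun _ => ∑ l ∈ Nr k, a l) y := by
    filter_upwards [hae] with y hy
    obtain ⟨hy1, hy2⟩ := mem_dy_dk n hy
    have h2 : (∫⁻ z, {w : ℝ | w ≤ 2 * (1 / 2) ^ n}.indicator (fun _ => (1 : ℝ≥0∞)) |y - z| ∂om) ≤
        ∫⁻ z, ∑ l ∈ Nr (dk n y), (dy n l).indicator (fun _ => (1 : ℝ≥0∞)) z ∂om := by
      refine lintegral_mono_ae ?_
      filter_upwards [hae] with z hz
      obtain ⟨hz1, hz2⟩ := mem_dy_dk n hz
      by_cases hw : |y - z| ≤ 2 * (1 / 2) ^ n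
      · rw [indicator_of_mem (by exact hw)]
        have h3 := near hy1 hz1 hw
        have h4 : dk n z ∈ Nr (dk n y) := by
          rw [hNr, Finset.mem_filter, Finset.mem_range]
          exact ⟨hz2, h3⟩
        refine le_trans (le_of_eq ?_) (Finset.single_le_sum
          (f := fun l => (dy n l).indicator (fun _ => (1 : ℝ≥0∞)) z) (fun _ _ => zero_le) h4)
        rw [indicator_of_mem hz1]
      · rw [indicator_of_notMem (by exact hw)]
        exact zero_le
    have h3 : ∫⁻ z, ∑ l ∈ Nr (dk n y), (dy n l).indicator (fun _ => (1 : ℝ≥0∞)) z ∂om =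
        ∑ l ∈ Nr (dk n y), a l := by
      rw [lintegral_finsetSum _ fun l _ => measurable_const.indicator (hmeas l)]
      refine Finset.sum_congr rfl fun l _ => ?_
      rw [lintegral_indicator (hmeas l), setLIntegral_const, one_mul]
    rw [h3] at h2
    refine h2.trans (le_trans (le_of_eq ?_) (Finset.single_le_sum
      (f := fun k => (dy n k).indicator (fun _ => ∑ l ∈ Nr k, a l) y) (fun _ _ => zero_le)
      (Finset.mem_range.2 hy2)))
    rw [indicator_of_mem hy1]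
  refine (lintegral_mono_ae h1).trans ?_
  rw [lintegral_finsetSum _ fun k _ => measurable_const.indicator (hmeas k)]
  have h2 : ∀ k ∈ Finset.range (2 ^ n), ∫⁻ y, (dy n k).indicator (fun _ => ∑ l ∈ Nr k, a l) y ∂om =
      ∑ l ∈ Nr k, a k * a l := by
    intro k _
    rw [lintegral_indicator (hmeas k), setLIntegral_const, Finset.sum_mul]
    exact Finset.sum_congr rfl fun l _ => mul_comm _ _
  rw [Finset.sum_congr rfl h2]
  have h3 : 2 * ∑ k ∈ Finset.range (2 ^ n), ∑ l ∈ Nr k, a k * a l ≤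
      2 * (5 * ∑ k ∈ Finset.range (2 ^ n), a k ^ 2) := by
    rw [Finset.mul_sum]
    have h4 : ∀ k ∈ Finset.range (2 ^ n), 2 * ∑ l ∈ Nr k, a k * a l ≤
        (∑ l ∈ Nr k, a k ^ 2) + ∑ l ∈ Nr k, a l ^ 2 := by
      intro k _
      rw [Finset.mul_sum, ← Finset.sum_add_distrib]
      exact Finset.sum_le_sum fun l _ => two_mul_le _ _
    refine (Finset.sum_le_sum h4).trans ?_
    rw [Finset.sum_add_distrib]
    have h5 : ∑ k ∈ Finset.range (2 ^ n), ∑ l ∈ Nr k, a k ^ 2 ≤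
        5 * ∑ k ∈ Finset.range (2 ^ n), a k ^ 2 := by
      rw [Finset.mul_sum]
      refine Finset.sum_le_sum fun k _ => ?_
      rw [Finset.sum_const, nsmul_eq_mul]
      have : ((Nr k).card : ℝ≥0∞) ≤ 5 := by exact_mod_cast card_near (2 ^ n) k
      gcongr
    have h6 : ∑ k ∈ Finset.range (2 ^ n), ∑ l ∈ Nr k, a l ^ 2 =
        ∑ k ∈ Finset.range (2 ^ n), ∑ l ∈ Nr k, a k ^ 2 := by
      rw [hNr]
      simp only [Finset.sum_filter]
      rw [Finset.sum_comm]
      refine Finset.sum_congr rfl fun k _ => Finset.sum_congr rfl fun l _ => ?_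
      congr 1
      exact propext and_comm
    rw [h6, two_mul]
    exact add_le_add h5 h5
  exact (ENNReal.mul_le_mul_iff_right (by norm_num) (by norm_num)).1 h3

end Pool.Agent.Q299.MD
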