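import Pool.Agent.Q88.MD.Stm

set_option autoImplicit false

/-!
# Project MD (helper88), job ENG (helper299)
-/

open MeasureTheory Set Filter Topology
open scoped ENNReal NNReal

namespace Pool.Agent.Q299.MDE

open Pool.Agent.Q88.MD

/-- the square of a potential -/
lemma sq_int {ν : Measure ℝ} {g : ℝ → ℝ≥0∞} (hg : Measurable g) :
    (∫⁻ y, g y ∂ν) ^ 2 = ∫⁻ y, ∫⁻ z, g y * g z ∂ν ∂ν := by
  rw [sq, ← lintegral_mul_const _ hg]
  refine lintegral_congr fun y => ?_
  rw [lintegral_const_mul _ hg]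

theorem eng (h : S_ker) (h1 : S_dbl) : S_eng := by
  intro s hs om hom h0 hfin
  obtain ⟨C, hC, hker⟩ := h s hs
  set τ : ℝ := (1 - s) / 2 with hτ
  set ν : Measure ℝ := om.restrict (Icc (0 : ℝ) 1) with hν
  set lam : Measure ℝ := (volume : Measure ℝ).restrict (Icc (0 : ℝ) 1) with hlam
  have hG : Measurable fun p : ℝ × ℝ => ENNReal.ofReal |p.1 - p.2| ^ (τ - 1) := by
    have h2 : Measurable fun p : ℝ × ℝ => ENNReal.ofReal |p.1 - p.2| := by fun_prop
    exact h2.pow_const _
  have hg : ∀ x : ℝ, Measurable fun y : ℝ => ENNReal.ofReal |x - y| ^ (τ - 1) := fun x =>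
    hG.comp (measurable_const.prodMk measurable_id)
  have e1 : energy τ om = ∫⁻ x, ∫⁻ y, ∫⁻ z, ENNReal.ofReal |x - y| ^ (τ - 1) *
      ENNReal.ofReal |x - z| ^ (τ - 1) ∂ν ∂ν ∂lam := by
    unfold energy
    exact lintegral_congr fun x => sq_int (hg x)
  -- measurability of the triple function
  have hT : Measurable fun p : ℝ × (ℝ × ℝ) => ENNReal.ofReal |p.1 - p.2.1| ^ (τ - 1) *
      ENNReal.ofReal |p.1 - p.2.2| ^ (τ - 1) := by
    exact (hG.comp (measurable_fst.prodMk (measurable_fst.comp measurable_snd))).mul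
      (hG.comp (measurable_fst.prodMk (measurable_snd.comp measurable_snd)))
  have e2 : energy τ om = ∫⁻ y, ∫⁻ z, ∫⁻ x, ENNReal.ofReal |x - y| ^ (τ - 1) *
      ENNReal.ofReal |x - z| ^ (τ - 1) ∂lam ∂ν ∂ν := by
    rw [e1, lintegral_lintegral_swap]
    · refine lintegral_congr fun y => ?_
      rw [lintegral_lintegral_swap]
      have : Measurable fun p : ℝ × ℝ => ENNReal.ofReal |p.1 - y| ^ (τ - 1) *
          ENNReal.ofReal |p.1 - p.2| ^ (τ - 1) :=
        hT.comp (measurable_fst.prodMk (measurable_const.prodMk measurable_snd))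
      exact this.aemeasurable
    · have : Measurable fun p : ℝ × ℝ => ∫⁻ z, ENNReal.ofReal |p.1 - p.2| ^ (τ - 1) *
          ENNReal.ofReal |p.1 - z| ^ (τ - 1) ∂ν := by
        have h3 : Measurable fun q : (ℝ × ℝ) × ℝ => ENNReal.ofReal |q.1.1 - q.1.2| ^ (τ - 1) *
            ENNReal.ofReal |q.1.1 - q.2| ^ (τ - 1) :=
          hT.comp ((measurable_fst.comp measurable_fst).prodMk
            ((measurable_snd.comp measurable_fst).prodMk measurable_snd))
        exact h3.lintegral_prod_right'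
      exact this.aemeasurable
  set ind : ℕ → ℝ → ℝ → ℝ≥0∞ := fun n y z =>
    {w : ℝ | w ≤ 2 * (1 / 2) ^ n}.indicator (fun _ => (1 : ℝ≥0∞)) |y - z| with hind
  have hindm : ∀ n, Measurable fun p : ℝ × ℝ => ind n p.1 p.2 := by
    intro n
    have h2 : Measurable fun w : ℝ =>
        {w : ℝ | w ≤ 2 * (1 / 2) ^ n}.indicator (fun _ => (1 : ℝ≥0∞)) w :=
      measurable_const.indicator (measurableSet_le measurable_id measurable_const)
    have h3 : Measurable fun p : ℝ × ℝ => |p.1 - p.2| := by fun_prop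
    exact h2.comp h3
  have hindy : ∀ n y, Measurable fun z => ind n y z := fun n y =>
    (hindm n).comp (measurable_const.prodMk measurable_id)
  have hindi : ∀ n, Measurable fun y => ∫⁻ z, ind n y z ∂ν := fun n =>
    (hindm n).lintegral_prod_right'
  have hae : ∀ᵐ y ∂ν, y ∈ Icc (0 : ℝ) 1 := ae_restrict_mem measurableSet_Icc
  have e3 : energy τ om ≤ ∫⁻ y, ∫⁻ z, C * ∑' n : ℕ, ENNReal.ofReal (2 ^ (n * s)) * ind n y z ∂ν ∂ν := by
    rw [e2]
    refine lintegral_mono_ae ?_
    filter_upwards [hae] with y hy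
    refine lintegral_mono_ae ?_
    filter_upwards [hae] with z hz
    exact hker y hy z hz
  have e4 : ∫⁻ y, ∫⁻ z, C * ∑' n : ℕ, ENNReal.ofReal (2 ^ (n * s)) * ind n y z ∂ν ∂ν =
      C * ∑' n : ℕ, ENNReal.ofReal (2 ^ (n * s)) * ∫⁻ y, ∫⁻ z, ind n y z ∂ν ∂ν := by
    have e5 : ∀ y, ∫⁻ z, C * ∑' n : ℕ, ENNReal.ofReal (2 ^ (n * s)) * ind n y z ∂ν =
        C * ∑' n : ℕ, ENNReal.ofReal (2 ^ (n * s)) * ∫⁻ z, ind n y z ∂ν := by
      intro y
      rw [lintegral_const_mul _ (Measurable.ennreal_tsum fun n => (hindy n y).const_mul _),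
        lintegral_tsum fun n => ((hindy n y).const_mul _).aemeasurable]
      congr 1
      exact tsum_congr fun n => lintegral_const_mul _ (hindy n y)
    rw [lintegral_congr e5,
      lintegral_const_mul _ (Measurable.ennreal_tsum fun n => (hindi n).const_mul _),
      lintegral_tsum fun n => ((hindi n).const_mul _).aemeasurable]
    congr 1
    exact tsum_congr fun n => lintegral_const_mul _ (hindi n)
  have hle : ν ≤ om := Measure.restrict_le_self
  have e6 : ∀ n, ∫⁻ y, ∫⁻ z, ind n y z ∂ν ∂ν ≤ 5 * ∑ k ∈ Finset.range (2 ^ n), om (dy n k) ^ 2 := by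
    intro n
    refine le_trans ?_ (h1 om hom h0 n)
    refine lintegral_mono' hle fun y => ?_
    exact lintegral_mono' hle fun z => le_rfl
  have e7 : energy τ om ≤ C * (5 * ∑' n : ℕ, ENNReal.ofReal (2 ^ (n * s)) *
      ∑ k ∈ Finset.range (2 ^ n), om (dy n k) ^ 2) := by
    rw [e4] at e3
    refine e3.trans ?_
    refine mul_le_mul_right ?_ _
    rw [← ENNReal.tsum_mul_left]
    refine ENNReal.tsum_le_tsum fun n => ?_
    rw [← mul_assoc, mul_comm (5 : ℝ≥0∞), mul_assoc]
    exact mul_le_mul_right (e6 n) _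
  refine ne_top_of_le_ne_top ?_ e7
  exact ENNReal.mul_ne_top hC (ENNReal.mul_ne_top (by norm_num) hfin)

end Pool.Agent.Q299.MDE
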