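import Pool.Agent.Q88.MD.Stm

set_option autoImplicit false

/-!
# Project MD (helper88), job NPL (helper299)
-/

open MeasureTheory Set Filter Topology
open scoped ENNReal NNReal

namespace Pool.Agent.Q299.MDN

open Pool.Agent.Q88.MD

lemma dk_eq {n k : ℕ} {x : ℝ} (hx : x ∈ dy n k) : dk n x = k := by
  have h2 : (0 : ℝ) < 2 ^ n := by positivity
  obtain ⟨h3, h4⟩ := hx
  rw [div_le_iff₀ h2] at h3
  rw [lt_div_iff₀ h2] at h4
  unfold dk
  rw [Nat.floor_eq_iff (by rw [mul_comm]; exact le_trans (by positivity) h3)]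
  rw [mul_comm]
  exact ⟨h3, h4⟩

lemma dy_disj (n : ℕ) : Pairwise (Function.onFun Disjoint (dy n)) := by
  intro k l hkl
  rw [Function.onFun, Set.disjoint_left]
  intro x hx hx'
  exact hkl ((dk_eq hx).symm.trans (dk_eq hx'))

lemma qap_mono (τ : ℝ) {A K : Set ℝ} (h : A ⊆ K) : Qap τ A ≤ Qap τ K := by
  unfold Qap
  refine iSup₂_le fun om hom => ?_
  obtain ⟨h1, C, h2, h3, h4⟩ := hom
  refine le_trans ?_ (le_iSup₂ (f := fun (om : Measure ℝ)
    (_ : IsFiniteMeasure om ∧ ∃ C, IsClosed C ∧ C ⊆ K ∧ om Cᶜ = 0) => om K ^ 2 / energy τ om) om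
    ⟨h1, C, h2, h3.trans h, h4⟩)
  gcongr

lemma meas_dk (n : ℕ) : Measurable (dk n) :=
  Nat.measurable_floor.comp (measurable_const.mul measurable_id)

theorem npl (h : S_cpt) : S_npl := by
  intro s hs μ hμ b hb hbt K hK hpos hae
  set A : ℕ → Set ℝ := fun m => (K ∩ Ico 0 1) ∩ {x | ∀ n, m ≤ n → μ (dy n (dk n x)) ≤ b n} with hA
  have hAm : ∀ m, MeasurableSet (A m) := by
    intro m
    refine (hK.inter measurableSet_Ico).inter ?_
    have e : {x : ℝ | ∀ n, m ≤ n → μ (dy n (dk n x)) ≤ b n} =
        ⋂ n, ⋂ (_ : m ≤ n), {x | μ (dy n (dk n x)) ≤ b n} := by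
      ext x
      simp
    rw [e]
    refine MeasurableSet.iInter fun n => MeasurableSet.iInter fun _ => ?_
    exact measurableSet_le ((measurable_of_countable fun k => μ (dy n k)).comp (meas_dk n))
      measurable_const
  obtain ⟨m, hm⟩ : ∃ m, 0 < μ (A m) := by
    by_contra hcon
    push Not at hcon
    have h1 : μ (⋃ m, A m) = 0 := by
      rw [measure_iUnion_null_iff]
      exact fun m => le_antisymm (hcon m) zero_le
    have h2 : ∀ᵐ x ∂μ, x ∈ Ico (0 : ℝ) 1 → ∀ᶠ n in atTop, μ (dy n (dk n x)) ≤ b n :=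
      (ae_restrict_iff' measurableSet_Ico).1 hae
    have h3 : μ (K ∩ Ico 0 1) ≤ μ (⋃ m, A m) := by
      refine measure_mono_ae ?_
      filter_upwards [h2] with x hx hxK
      obtain ⟨m, hm⟩ := eventually_atTop.1 (hx hxK.2)
      exact mem_iUnion.2 ⟨m, hxK, fun n hn => hm n hn⟩
    rw [h1] at h3
    exact absurd hpos (not_lt.2 h3)
  have hAsub : A m ⊆ K := fun x hx => hx.1.1
  have hnot : ¬ Polar s (A m) := by
    refine h s hs μ hμ (A m) (hAm m) ?_ ?_
    · rw [inter_eq_left.2 fun x hx => hx.1.2]
      exact hm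
    · intro C hC _
      set f : ℕ → ℝ≥0∞ := fun n => ENNReal.ofReal (2 ^ (n * s)) *
        ∑ k ∈ Finset.range (2 ^ n), μ.restrict C (dy n k) ^ 2 with hf
      have hfin : ∀ n, f n ≠ ⊤ := by
        intro n
        refine ENNReal.mul_ne_top ENNReal.ofReal_ne_top (ENNReal.sum_ne_top.2 fun k _ => ?_)
        exact ENNReal.pow_ne_top (measure_ne_top _ _)
      have hbig : ∀ n, m ≤ n → f n ≤ (ENNReal.ofReal (2 ^ (n * s)) * b n) * μ univ := by
        intro n hn
        rw [hf, mul_assoc]
        refine mul_le_mul_right (a := ENNReal.ofReal (2 ^ (n * s))) ?_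
        have h1 : ∀ k ∈ Finset.range (2 ^ n), μ.restrict C (dy n k) ^ 2 ≤
            b n * μ.restrict C (dy n k) := by
          intro k _
          rw [sq]
          rcases (dy n k ∩ C).eq_empty_or_nonempty with he | ⟨x, hx1, hx2⟩
          · have h2 : μ.restrict C (dy n k) = 0 := by
              rw [Measure.restrict_apply (show MeasurableSet (dy n k) from measurableSet_Ico), he,
                measure_empty]
            rw [h2]
            simp
          · have h2 := (hC hx2).1.2 n hn
            rw [dk_eq hx1] at h2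
            exact mul_le_mul_left ((Measure.restrict_le_self _).trans h2) _
        refine (Finset.sum_le_sum h1).trans ?_
        rw [← Finset.mul_sum]
        refine mul_le_mul_right ?_ _
        refine (sum_measure_le_measure_univ (μ := μ.restrict C) (s := Finset.range (2 ^ n))
          (t := dy n) (fun k _ => (measurableSet_Ico).nullMeasurableSet) ?_).trans
          (Measure.restrict_le_self _)
        intro k _ l _ hkl
        exact (dy_disj n hkl).aedisjoint
      have hle : ∀ n, f n ≤ (ENNReal.ofReal (2 ^ (n * s)) * b n) * μ univ +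
          (if n ∈ Finset.range m then f n else 0) := by
        intro n
        by_cases hn : n < m
        · rw [if_pos (Finset.mem_range.2 hn)]
          exact le_add_self
        · rw [if_neg (by simpa using hn), add_zero]
          exact hbig n (not_lt.1 hn)
      refine ne_top_of_le_ne_top ?_ (ENNReal.tsum_le_tsum hle)
      rw [ENNReal.tsum_add, ENNReal.tsum_mul_right]
      refine ENNReal.add_ne_top.2 ⟨ENNReal.mul_ne_top hb (measure_ne_top _ _), ?_⟩
      rw [tsum_eq_sum (s := Finset.range m) (fun n hn => if_neg hn)]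
      refine ENNReal.sum_ne_top.2 fun n hn => ?_
      rw [if_pos hn]
      exact hfin n
  intro hP
  rcases hP with hP | hP
  · exact absurd hP (ne_of_lt hs.2)
  · exact hnot (Or.inr (le_antisymm ((qap_mono _ hAsub).trans hP.le) zero_le))

end Pool.Agent.Q299.MDN
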