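import Mathlib
import Pool.Agent.Q2.PM.Stm

/-! Project PM (helper2), job C10: a normal 2-subgroup commuting with L. -/

set_option autoImplicit false

namespace Q299.PM_C10

open Subgroup
open Q2.PM
open Q2.TN (IsPNil IsSyl IsChief Nm)

variable {G : Type} [Group G]

theorem le_syl [Finite G] {P T : Subgroup G} (hP : IsSyl 2 P) (hT : T.Normal)
    (h2 : IsPGroup 2 T) : T ≤ P := by
  have hs : IsPGroup 2 ↥(T ⊔ P) := IsPGroup.to_sup_of_normal_left h2 hP.1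
  have h3 : T ⊔ P = P := (hP.1.toSylow hP.2).is_maximal' hs le_sup_right
  rw [← h3]
  exact le_sup_left

theorem card_rel {A B : Subgroup G} (h : A ≤ B) :
    Nat.card A * A.relIndex B = Nat.card B := by
  have := relIndex_mul_relIndex (⊥ : Subgroup G) A B bot_le h
  rwa [relIndex_bot_left, relIndex_bot_left] at this

theorem chief_bot {T : Subgroup G} (hT : Q2.PM.IsMin T) : IsChief ⊥ T :=
  ⟨inferInstance, hT.1, bot_lt_iff_ne_bot.2 hT.2.1, fun L hL _ h => hT.2.2.2 L hL h⟩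

theorem central_small {T : Subgroup G} (hT : Q2.PM.IsMin T) {z : G} (hz : z ∈ T) (h1 : z ≠ 1)
    (h2 : z * z = 1) (hc : ∀ g : G, g * z = z * g) : Nat.card T = 2 := by
  have hn : (zpowers z).Normal := by
    refine ⟨?_⟩
    rintro _ ⟨k, rfl⟩ g
    have hcom : Commute g (z ^ k) := (show Commute g z from hc g).zpow_right k
    have : g * z ^ k * g⁻¹ = z ^ k := by rw [hcom.eq, mul_inv_cancel_right]
    change g * z ^ k * g⁻¹ ∈ _
    rw [this]
    exact ⟨k, rfl⟩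
  rcases hT.2.2.2 _ hn (zpowers_le.2 hz) with h | h
  · exact absurd (zpowers_eq_bot.1 h) h1
  · rw [← h, Nat.card_zpowers]
    exact orderOf_eq_prime (by rw [sq, h2]) h1

theorem idx2 [Finite G] {T₁ T : Subgroup G} (h : T₁ ≤ T) (hc : Nat.card T = 2 * Nat.card T₁)
    {a b : G} (ha : a ∈ T) (ha1 : a ∉ T₁) (hb : b ∈ T) (hb1 : b ∉ T₁) : a * b ∈ T₁ := by
  have h1 := card_rel h
  have h2 : 0 < Nat.card T₁ := Nat.card_pos
  have h3 : T₁.relIndex T = 2 := by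
    rw [hc, mul_comm 2] at h1
    exact Nat.eq_of_mul_eq_mul_left h2 h1
  have h4 : (T₁.subgroupOf T).index = 2 := h3
  have h5 := mul_mem_iff_of_index_two h4 (a := ⟨a, ha⟩) (b := ⟨b, hb⟩)
  rw [mem_subgroupOf, mem_subgroupOf, mem_subgroupOf] at h5
  exact h5.2 ⟨fun h => absurd h ha1, fun h => absurd h hb1⟩

theorem pow_card {A : Subgroup G} [Finite G] (h : IsPGroup 2 A) : ∃ n, Nat.card A = 2 ^ n :=
  IsPGroup.iff_card.mp h

theorem pgrp {A : Subgroup G} [Finite G] {n : ℕ} (h : Nat.card A = 2 ^ n) : IsPGroup 2 A :=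
  IsPGroup.iff_card.mpr ⟨n, h⟩

theorem exists_chief [Finite G] {L U : Subgroup G} (hL : L.Normal) (hU : U.Normal)
    (h : L < U) : ∃ V : Subgroup G, IsChief L V ∧ V ≤ U := by
  classical
  let s : Set (Subgroup G) := {V | V.Normal ∧ L < V ∧ V ≤ U}
  have hs : s.Nonempty := ⟨U, hU, h, le_rfl⟩
  have hfin : s.Finite := Set.toFinite s
  obtain ⟨V, hV, hmin⟩ := hfin.exists_minimal hs
  refine ⟨V, ⟨hL, hV.1, hV.2.1, ?_⟩, hV.2.2⟩
  intro W hW hLW hWV
  by_cases he : L = W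
  · exact Or.inl he.symm
  · right
    have : W ∈ s := ⟨hW, lt_of_le_of_ne hLW he, hWV.trans hV.2.2⟩
    exact le_antisymm hWV (hmin this hWV)

theorem c10 (h1 : S_B1) (h4 : S_B4) (h9 : S_B9) (c9 : S_C9) : S_C10 := by
  intro k G _ _ P T L U env hT hk hcT hLn hTL hcL Lab Lexp hUn hUp hLU hcomm
  by_contra hne
  obtain ⟨V, hV, hVU⟩ := exists_chief hLn hUn (lt_of_le_of_ne hLU (Ne.symm hne))
  have hVp : IsPGroup 2 V := hUp.to_le hVU
  have hVP : V ≤ P := le_syl env.syl hV.2.1 hVp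
  have hsq : ∀ x ∈ V, x * x ∈ L := (h1 G L V V hV hVp hV.2.1 hVp).1
  obtain ⟨T₁, hT₁, hcard, hN⟩ := h4 G T P hT.1 hT.2.2.1 hT.2.1 env.syl.1
  obtain ⟨t, htT, htT₁, htc⟩ := h9 G T₁ T L V hLn hV.2.1 hV.2.2.1 hT₁ hTL
    (fun x hx y hy => (hcomm y (hVU hy) x hx).symm) Lexp
    (fun x hx hx1 y hy hy1 => idx2 hT₁ hcard hx hx1 hy hy1)
    (fun x hx hxL => c9 k G P T L T₁ x env hT hk hcT hLn hTL hcL Lab Lexp hT₁ hcard hN
      (hVP hx) hxL (hsq x hx) (hcomm x (hVU hx)))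
  have h2 := central_small hT htT (fun h => htT₁ (by rw [h]; exact T₁.one_mem))
    (Lexp t (hTL htT)) htc
  rw [hcT] at h2
  have h3 : 2 ^ 2 ≤ 2 ^ (k - 1) := Nat.pow_le_pow_right (by norm_num) (by omega)
  omega

end Q299.PM_C10
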