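import Mathlib
import Pool.Agent.Q2.PM.Stm

/-! Project PM (helper2), job C7: the normal subgroup L. -/

set_option autoImplicit false

namespace Q299.PM_C7

open Subgroup
open Q2.PM
open Q2.TN (IsPNil IsSyl IsChief Nm)

variable {G : Type} [Group G]

theorem le_syl [Finite G] {P T : Subgroup G} (hP : IsSyl 2 P) (hT : T.Normal)
    (h2 : IsPGroup 2 T) : T ≤ P := by
  have hs : IsPGroup 2 ↥(T ⊔ P) := IsPGroup.to_sup_of_normal_left h2 hP.1
  have h3 : T ⊔ P = P := (hP.1.toSylow hP.2).is_maximal' hs le_sup_right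
  rw [← h3]
  exact le_sup_left

theorem card_rel {A B : Subgroup G} (h : A ≤ B) :
    Nat.card A * A.relIndex B = Nat.card B := by
  have := relIndex_mul_relIndex (⊥ : Subgroup G) A B bot_le h
  rwa [relIndex_bot_left, relIndex_bot_left] at this

theorem chief_bot {T : Subgroup G} (hT : Q2.PM.IsMin T) : IsChief ⊥ T :=
  ⟨inferInstance, hT.1, bot_lt_iff_ne_bot.2 hT.2.1, fun L hL _ h => hT.2.2.2 L hL h⟩

theorem central_small {T : Subgroup G} (hT : Q2.PM.IsMin T) {z : G} (hz : z ∈ T) (h1 : z ≠ 1)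
    (h2 : z * z = 1) (hc : ∀ g : G, g * z = z * g) : Nat.card T = 2 := by
  have hn : (zpowers z).Normal := by
    refine ⟨?_⟩
    rintro _ ⟨k, rfl⟩ g
    have hcom : Commute g (z ^ k) := (show Commute g z from hc g).zpow_right k
    have : g * z ^ k * g⁻¹ = z ^ k := by rw [hcom.eq, mul_inv_cancel_right]
    change g * z ^ k * g⁻¹ ∈ _
    rw [this]
    exact ⟨k, rfl⟩
  rcases hT.2.2.2 _ hn (zpowers_le.2 hz) with h | h
  · exact absurd (zpowers_eq_bot.1 h) h1
  · rw [← h, Nat.card_zpowers]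
    exact orderOf_eq_prime (by rw [sq, h2]) h1

theorem idx2 [Finite G] {T₁ T : Subgroup G} (h : T₁ ≤ T) (hc : Nat.card T = 2 * Nat.card T₁)
    {a b : G} (ha : a ∈ T) (ha1 : a ∉ T₁) (hb : b ∈ T) (hb1 : b ∉ T₁) : a * b ∈ T₁ := by
  have h1 := card_rel h
  have h2 : 0 < Nat.card T₁ := Nat.card_pos
  have h3 : T₁.relIndex T = 2 := by
    rw [hc, mul_comm 2] at h1
    exact Nat.eq_of_mul_eq_mul_left h2 h1
  have h4 : (T₁.subgroupOf T).index = 2 := h3
  have h5 := mul_mem_iff_of_index_two h4 (a := ⟨a, ha⟩) (b := ⟨b, hb⟩)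
  rw [mem_subgroupOf, mem_subgroupOf, mem_subgroupOf] at h5
  exact h5.2 ⟨fun h => absurd h ha1, fun h => absurd h hb1⟩

theorem pow_card {A : Subgroup G} [Finite G] (h : IsPGroup 2 A) : ∃ n, Nat.card A = 2 ^ n :=
  IsPGroup.iff_card.mp h

theorem pgrp {A : Subgroup G} [Finite G] {n : ℕ} (h : Nat.card A = 2 ^ n) : IsPGroup 2 A :=
  IsPGroup.iff_card.mpr ⟨n, h⟩

/-- `T ∪ x T` -/
def ext2 (T : Subgroup G) (hT : T.Normal) (x : G) (hx : x * x ∈ T) : Subgroup G where
  carrier := {g | g ∈ T ∨ x * g ∈ T}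
  mul_mem' := by
    rintro a b (ha | ha) (hb | hb)
    · exact Or.inl (T.mul_mem ha hb)
    · right
      have := T.mul_mem (hT.conj_mem a ha x) hb
      have e : x * a * x⁻¹ * (x * b) = x * (a * b) := by group
      rwa [e] at this
    · right
      have := T.mul_mem ha hb
      rwa [mul_assoc] at this
    · left
      have h1 : x⁻¹ * (x * a) * x ∈ T := by
        have := hT.conj_mem _ ha x⁻¹
        rwa [inv_inv] at this
      have h2 := T.mul_mem (T.mul_mem h1 (T.inv_mem hx)) hb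
      have e : x⁻¹ * (x * a) * x * (x * x)⁻¹ * (x * b) = a * b := by group
      rwa [e] at h2
  one_mem' := Or.inl T.one_mem
  inv_mem' := by
    rintro a (ha | ha)
    · exact Or.inl (T.inv_mem ha)
    · right
      have h1 := hT.conj_mem _ (T.inv_mem ha) x
      have h2 := T.mul_mem hx h1
      have h3 := T.mul_mem (T.inv_mem ha) hx
      have h4 := hT.conj_mem _ h3 x
      have e : x * ((x * a)⁻¹ * (x * x)) * x⁻¹ = x * a⁻¹ := by group
      rwa [e] at h4

theorem c7 (h1 : S_B1) (h2 : S_B2) (h5 : S_B5) (c3 : S_C3) (c5 : S_C5) : S_C7 := by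
  intro k G _ _ P T env hT hk hcT
  have hPp := env.syl.1
  obtain ⟨H, -, hHP, hHc⟩ := h5 k G ⊥ P bot_le hPp (by rw [card_bot]; exact Nat.one_le_two_pow)
    env.card_lt.le
  have hpow : 2 ^ k = 2 * 2 ^ (k - 1) := by
    rw [← pow_succ']
    congr 1
    omega
  have hpos : 0 < 2 ^ (k - 1) := by positivity
  have hHT : ¬ H ≤ T := by
    intro h
    have := card_le_of_le h
    rw [hHc, hcT] at this
    omega
  obtain ⟨V, hV, hVp⟩ := c5 k G P T H env hT.1 hT.2.2.1 hHP hHc hHT
    (fun F hF hTF ho => c3 k G P T F env hT hF hTF ho)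
  obtain ⟨x, hxV, hxT, hxx, hxP⟩ := h2 G T V P hT.1 hV.2.1 hV.2.2.1 hVp hPp
  have hVP : V ≤ P := le_syl env.syl hV.2.1 hVp
  have hTV : T ≤ V := hV.2.2.1.le
  set L := ext2 T hT.1 x hxx with hL
  have hTL : T ≤ L := fun t ht => Or.inl ht
  have hxL : x ∈ L := Or.inr hxx
  have hLV : L ≤ V := by
    rintro g (hg | hg)
    · exact hTV hg
    · have := V.mul_mem (V.inv_mem hxV) (hTV hg)
      rwa [inv_mul_cancel_left] at this
  have hLp : IsPGroup 2 L := hVp.to_le hLV
  have hcL : Nat.card L = 2 ^ k := by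
    have hidx : (T.subgroupOf L).index = 2 := by
      rw [index_eq_two_iff]
      refine ⟨⟨x, hxL⟩, ?_⟩
      rintro ⟨b, hb⟩
      rw [mem_subgroupOf, mem_subgroupOf]
      change Xor (b * x ∈ T) (b ∈ T)
      by_cases hbT : b ∈ T
      · right
        refine ⟨hbT, fun h => hxT ?_⟩
        have := T.mul_mem (T.inv_mem hbT) h
        rwa [inv_mul_cancel_left] at this
      · left
        refine ⟨?_, hbT⟩
        have hb' : x * b ∈ T := hb.resolve_left hbT
        have := hT.1.conj_mem _ hb' x⁻¹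
        have e : x⁻¹ * (x * b) * x⁻¹⁻¹ = b * x := by group
        rwa [e] at this
    have h3 := card_rel hTL
    have h4 : T.relIndex L = 2 := hidx
    rw [h4, hcT] at h3
    rw [← h3, hpow, mul_comm]
  have hLn : L.Normal := by
    have hconj : ∀ y ∈ P, ∀ g ∈ L, y * g * y⁻¹ ∈ L := by
      rintro y hy g (hg | hg)
      · exact Or.inl (hT.1.conj_mem g hg y)
      · right
        have h3 := T.inv_mem (hxP y hy)
        have h4 := hT.1.conj_mem _ hg y
        have h5 := T.mul_mem h3 h4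
        have e : (y * x * y⁻¹ * x⁻¹)⁻¹ * (y * (x * g) * y⁻¹) = x * (y * g * y⁻¹) := by group
        rwa [e] at h5
    have hPN : P ≤ Nm L := by
      intro y hy
      rw [mem_normalizer_iff]
      intro g
      refine ⟨hconj y hy g, fun hg => ?_⟩
      have := hconj y⁻¹ (P.inv_mem hy) _ hg
      have e : y⁻¹ * (y * g * y⁻¹) * y⁻¹⁻¹ = g := by group
      rwa [e] at this
    have hLVi : L ⊓ V = L := inf_eq_left.2 hLV
    have := env.gen L V (Nm L) (hLV.trans hVP) hcL hV.2.1 hVp hPN (by rw [hLVi])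
    exact normalizer_eq_top_iff.1 this
  obtain ⟨hTexp, hTc⟩ := h1 G ⊥ T L (chief_bot hT) hT.2.2.1 hLn hLp
  have hTexp' : ∀ t ∈ T, t * t = 1 := fun t ht => mem_bot.1 (hTexp t ht)
  have hTc' : ∀ t ∈ T, ∀ y ∈ L, t * y = y * t := by
    intro t ht y hy
    have := mem_bot.1 (hTc t ht y hy)
    exact mul_inv_eq_iff_eq_mul.1 (mul_inv_eq_one.1 this)
  have hx4 : x * x * (x * x) = 1 := hTexp' _ hxx
  have hsq : ∀ g ∈ L, g ∉ T → g * g = x * x := by
    intro g hg hgT
    have hg' : x * g ∈ T := Or.resolve_left hg hgT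
    have e1 := hTexp' _ hg'
    have e2 := hTc' _ hg' x hxL
    -- (x g) x = x (x g), so g x = x g
    have e3 : g * x = x * g := by
      have : x * (g * x) = x * (x * g) := by rw [← mul_assoc]; exact e2
      exact mul_left_cancel this
    have e4 : x * x * (g * g) = 1 := by
      rw [← e1]
      calc x * x * (g * g) = x * (x * g) * g := by group
        _ = x * (g * x) * g := by rw [e3]
        _ = x * g * (x * g) := by group
    have e5 : x * x * (g * g) = x * x * (x * x) := by rw [e4, hx4]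
    exact mul_left_cancel e5
  have hz : x * x = 1 := by
    by_contra hz1
    have hcen : ∀ g : G, g * (x * x) = (x * x) * g := by
      intro g
      have h3 : g * x * g⁻¹ ∈ L := hLn.conj_mem x hxL g
      have h4 : g * x * g⁻¹ ∉ T := by
        intro h
        apply hxT
        have := hT.1.conj_mem _ h g⁻¹
        have e : g⁻¹ * (g * x * g⁻¹) * g⁻¹⁻¹ = x := by group
        rwa [e] at this
      have h5 := hsq _ h3 h4
      calc g * (x * x) = (g * x * g⁻¹ * (g * x * g⁻¹)) * g := by group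
        _ = x * x * g := by rw [h5]
    have h2' := central_small hT hxx hz1 hx4 hcen
    rw [hcT] at h2'
    have h3 : 2 ^ 2 ≤ 2 ^ (k - 1) := Nat.pow_le_pow_right (by norm_num) (by omega)
    omega
  refine ⟨L, hLn, hTL, hcL, ?_, ?_, x, hxL, hxT⟩
  · intro a ha b hb
    by_cases haT : a ∈ T
    · exact hTc' a haT b hb
    by_cases hbT : b ∈ T
    · exact (hTc' b hbT a ha).symm
    have ha' : x * a ∈ T := Or.resolve_left ha haT
    have hab : a * b ∈ T := by
      have h3 : b⁻¹ ∈ L := L.inv_mem hb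
      have hb' : x * b ∈ T := Or.resolve_left hb hbT
      have h4 := T.mul_mem (T.inv_mem ha') hb'
      have e : (x * a)⁻¹ * (x * b) = a⁻¹ * b := by group
      rw [e] at h4
      have h5 : a * a = 1 := by rw [hsq a ha haT, hz]
      have h6 : a⁻¹ = a := inv_eq_of_mul_eq_one_left h5
      rwa [h6] at h4
    have h5 : a * a = 1 := by rw [hsq a ha haT, hz]
    have h6 : b * b = 1 := by rw [hsq b hb hbT, hz]
    have h7 := hTexp' _ hab
    have h8 : (a * b)⁻¹ = a * b := inv_eq_of_mul_eq_one_left h7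
    rw [← h8, mul_inv_rev, inv_eq_of_mul_eq_one_left h5, inv_eq_of_mul_eq_one_left h6]
  · intro g hg
    by_cases hgT : g ∈ T
    · exact hTexp' g hgT
    · rw [hsq g hg hgT, hz]

end Q299.PM_C7
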