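import Pool.Agent.Q299.PS.TB

/-!
Project PS (helper88), job DEC (helper299).
-/

set_option autoImplicit false

open MeasureTheory Set Filter Topology
open scoped ENNReal NNReal

noncomputable section

namespace Pool.Agent.Q299.PS

open Pool.Agent.Q88.PS

lemma dec_pt {lam : ℝ} (hlam : lam ∈ Icc (1 : ℝ) (3 / 2)) (r n : ℕ) (τ : ℝ) :
    RR lam r (n + (r + 1)) τ + 2⁻¹ ^ (r + 1) * RR lam r n (8 ^ (r + 1) * τ) ≤
      (TT lam)^[r + 1] (RR lam r n) τ := by
  have hl : 0 ≤ lam := by linarith [hlam.1]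
  by_cases h : τ ∈ Ioo (0 : ℝ) ((1 / 8) ^ r)
  · rw [RR_zero_of_mem lam r _ h, zero_add]
    exact le_TT_iter lam _ _ _
  · have h1 : RR lam r n (8 ^ (r + 1) * τ) = 0 := by
      apply van_RR hl r n
      intro h2
      apply h
      have h3 : 0 < τ := by
        by_contra h4
        have : (8 : ℝ) ^ (r + 1) * τ ≤ 0 :=
          mul_nonpos_of_nonneg_of_nonpos (by positivity) (not_lt.1 h4)
        linarith [h2.1]
      refine ⟨h3, ?_⟩
      by_contra h4
      have h5 : (8 : ℝ) ^ (r + 1) * (1 / 8) ^ r ≤ 8 ^ (r + 1) * τ :=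
        mul_le_mul_of_nonneg_left (not_lt.1 h4) (by positivity)
      have h6 : (8 : ℝ) ^ (r + 1) * (1 / 8) ^ r = 8 := by
        rw [pow_succ, mul_right_comm, ← mul_pow]
        norm_num
      have h7 := h2.2
      have h8 := LL_le hlam.2
      linarith
    rw [h1, mul_zero, add_zero]
    exact RR_add_le lam r n (r + 1) τ

lemma lint_scale {F : ℝ → ℝ≥0∞} (hF : Measurable F) (m : ℕ) :
    ∫⁻ τ, F (8 ^ m * τ) = (8 : ℝ≥0∞)⁻¹ ^ m * ∫⁻ τ, F τ := by
  have h8 : (8 : ℝ) ^ m ≠ 0 := by positivity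
  have h1 : ∫⁻ τ, F (8 ^ m * τ) = ∫⁻ τ, F τ ∂(Measure.map (fun x : ℝ => 8 ^ m * x) volume) := by
    rw [lintegral_map hF (measurable_const_mul _)]
  rw [h1, Real.map_volume_mul_left h8, lintegral_smul_measure]
  congr 1
  rw [abs_of_pos (by positivity), ENNReal.ofReal_inv_of_pos (by positivity),
    ENNReal.ofReal_pow (by norm_num), ENNReal.inv_pow]
  norm_num

lemma lint_RR_zero (lam : ℝ) (r : ℕ) : ∫⁻ τ, RR lam r 0 τ ≠ ⊤ := by
  have h1 : ∀ τ, RR lam r 0 τ ≤ (Ioo (0 : ℝ) (LL lam)).indicator (fun _ => 1) τ := by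
    intro τ
    show (Ioo (0 : ℝ) (LL lam) \ Ioo (0 : ℝ) ((1 / 8) ^ r)).indicator (fun _ => 1) τ ≤ _
    exact indicator_le_indicator_of_subset sdiff_subset (fun _ => zero_le) τ
  have h2 := lintegral_mono (μ := volume) h1
  rw [lintegral_indicator measurableSet_Ioo, setLIntegral_const, Real.volume_Ioo, one_mul] at h2
  exact ne_top_of_le_ne_top ENNReal.ofReal_ne_top h2

lemma lint_RR_succ (h : S_tin) (lam : ℝ) (r n : ℕ) :
    ∫⁻ τ, RR lam r (n + 1) τ ≤ ∫⁻ τ, RR lam r n τ := by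
  rw [← h lam _ (meas_RR lam r n)]
  exact lintegral_mono (RR_succ_le lam r n)

theorem dec (h : S_tin) : S_dec := by
  intro lam hlam r
  have hanti : Antitone fun n => ∫⁻ τ, RR lam r n τ :=
    antitone_nat_of_succ_le fun n => lint_RR_succ h lam r n
  have hlim := tendsto_atTop_iInf hanti
  have hkey : ∀ n, (∫⁻ τ, RR lam r (n + (r + 1)) τ) +
      2⁻¹ ^ (r + 1) * (8⁻¹ ^ (r + 1) * ∫⁻ τ, RR lam r n τ) ≤ ∫⁻ τ, RR lam r n τ := by
    intro n
    have hm : Measurable fun τ : ℝ => RR lam r n (8 ^ (r + 1) * τ) :=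
      (meas_RR lam r n).comp (measurable_const_mul _)
    rw [← lint_scale (meas_RR lam r n), ← lintegral_const_mul _ hm,
      ← lintegral_add_left (meas_RR lam r _), ← lint_iter h lam (meas_RR lam r n) (r + 1)]
    exact lintegral_mono (dec_pt hlam r n)
  set I := ⨅ n, ∫⁻ τ, RR lam r n τ with hI
  have hfin : I ≠ ⊤ := ne_top_of_le_ne_top (lint_RR_zero lam r) (iInf_le _ 0)
  have h1 : I + 2⁻¹ ^ (r + 1) * (8⁻¹ ^ (r + 1) * I) ≤ I := by
    conv_rhs => rw [hI]
    refine le_iInf fun n => ?_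
    refine le_trans (add_le_add (iInf_le _ (n + (r + 1))) ?_) (hkey n)
    exact mul_le_mul_right (mul_le_mul_right (iInf_le _ n) _) _
  have h2 : 2⁻¹ ^ (r + 1) * (8⁻¹ ^ (r + 1) * I) = 0 := by
    by_contra h3
    exact absurd h1 (not_le.2 (ENNReal.lt_add_right hfin h3))
  have h3 : I = 0 := by
    rcases mul_eq_zero.1 h2 with h4 | h4
    · exact absurd h4 (pow_ne_zero _ (by simp))
    · rcases mul_eq_zero.1 h4 with h5 | h5
      · exact absurd h5 (pow_ne_zero _ (by simp))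
      · exact h5
  rwa [h3] at hlim

end Pool.Agent.Q299.PS
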