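import Pool.Agent.Q299.PS.TB

/-!
Project PS (helper88), job KEY (helper299).
-/

set_option autoImplicit false

open MeasureTheory Set Filter Topology
open scoped ENNReal NNReal

noncomputable section

namespace Pool.Agent.Q299.PS

open Pool.Agent.Q88.PS

/-- on `(0, 1/8)` only the digit zero counts -/
lemma TT_small {lam : ℝ} (hl : 1 ≤ lam) {F : ℝ → ℝ≥0∞} (hF : Van lam F) {τ : ℝ} (h : τ < 1 / 8) :
    TT lam F τ = 2⁻¹ * F (8 * τ) := by
  unfold TT
  rw [Finset.sum_eq_single d0]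
  · rw [dl_d0, sub_zero]
  · intro d _ hd
    apply hF
    intro h1
    have h2 := one_le_dl hl hd
    have h3 := h1.1
    linarith
  · intro h1
    exact absurd (Finset.mem_univ _) h1

lemma G_small {lam : ℝ} (hl : 1 ≤ lam) {C : ℝ≥0∞} (hC : ∀ n τ, (TT lam)^[n] (ind lam) τ ≤ C)
    (r n : ℕ) : ∀ τ : ℝ, τ ∈ Ioo (0 : ℝ) ((1 / 8) ^ r) →
      (TT lam)^[n + r] (ind lam) τ ≤ (2 : ℝ≥0∞)⁻¹ ^ r * C := by
  induction r with
  | zero =>
    intro τ _
    simpa using hC n τ
  | succ r ih =>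
    intro τ hτ
    have h1 : τ < 1 / 8 := by
      refine lt_of_lt_of_le hτ.2 ?_
      rw [pow_succ]
      have : ((1 : ℝ) / 8) ^ r ≤ 1 := pow_le_one₀ (by norm_num) (by norm_num)
      linarith
    rw [show n + (r + 1) = (n + r) + 1 by ring, Function.iterate_succ_apply',
      TT_small hl (van_iter (by linarith) (van_ind lam) _) h1, pow_succ', mul_assoc]
    refine mul_le_mul_right (ih (8 * τ) ⟨by linarith [hτ.1], ?_⟩) _
    have h2 := hτ.2
    rw [pow_succ] at h2
    linarith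

theorem key : S_key := by
  intro lam hlam C hC r n
  have hl : 0 ≤ lam := by linarith [hlam.1]
  have hL := LL_gt hlam.1
  have h8 : ((1 : ℝ) / 8) ^ r ≤ 1 := pow_le_one₀ (by norm_num) (by norm_num)
  induction n with
  | zero =>
    intro τ
    by_cases h1 : τ ∈ Ioo (0 : ℝ) (LL lam)
    · by_cases h2 : τ ∈ Ioo (0 : ℝ) ((1 / 8) ^ r)
      · have h3 : vv lam 0 τ = 1 := by
          show (Ioo (0 : ℝ) (LL lam)).indicator (fun _ => (1 : ℝ≥0∞)) τ = 1
          rw [indicator_of_mem h1]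
        rw [h3, mul_one]
        exact (G_small hlam.1 hC r 0 τ h2).trans le_add_self
      · have h3 : RR lam r 0 τ = 1 := by
          show (Ioo (0 : ℝ) (LL lam) \ Ioo (0 : ℝ) ((1 / 8) ^ r)).indicator
            (fun _ => (1 : ℝ≥0∞)) τ = 1
          rw [indicator_of_mem]
          exact ⟨h1, h2⟩
        rw [h3, mul_one]
        exact (hC _ τ).trans le_self_add
    · rw [van_iter hl (van_ind lam) _ τ h1]
      exact zero_le
  | succ n ih =>
    intro τ
    by_cases h2 : τ ∈ Ioo (0 : ℝ) ((1 / 8) ^ r)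
    · have h1 : τ ∈ Ioo (0 : ℝ) (LL lam) := ⟨h2.1, by linarith [h2.2]⟩
      have h3 : 1 ≤ vv lam (n + 1) τ := by
        show 1 ≤ max (ind lam τ) (TT lam (vv lam n) τ)
        refine le_max_of_le_left ?_
        show 1 ≤ (Ioo (0 : ℝ) (LL lam)).indicator (fun _ => (1 : ℝ≥0∞)) τ
        rw [indicator_of_mem h1]
      refine (G_small hlam.1 hC r (n + 1) τ h2).trans (le_trans ?_ le_add_self)
      calc (2 : ℝ≥0∞)⁻¹ ^ r * C = (2 : ℝ≥0∞)⁻¹ ^ r * C * 1 := (mul_one _).symm
        _ ≤ _ := mul_le_mul_right h3 _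
    · rw [show n + 1 + r = (n + r) + 1 by ring, Function.iterate_succ_apply',
        RR_succ_of_notMem lam r n h2]
      refine (TT_mono lam ih τ).trans ?_
      rw [TT_lin]
      refine add_le_add le_rfl (mul_le_mul_right ?_ _)
      exact le_max_right _ _

end Pool.Agent.Q299.PS
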