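import Pool.Agent.Q299.PS.TB

/-!
Project PS (helper88), job POS (helper299).
-/

set_option autoImplicit false

open MeasureTheory Set Filter Topology
open scoped ENNReal NNReal

noncomputable section

namespace Pool.Agent.Q299.PS

open Pool.Agent.Q88.PS

/-- the points with a large value -/
def Gk (lam : ℝ) (k n : ℕ) : Set ℝ := {τ | τ ∈ Ioo (0 : ℝ) (LL lam) ∧ (k : ℝ≥0∞) < vv lam n τ}

/-- the points with a large value at some depth -/
def Hk (lam : ℝ) (k : ℕ) : Set ℝ := {τ | τ ∈ Ioo (0 : ℝ) (LL lam) ∧ (k : ℝ≥0∞) < Vs lam τ}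

lemma Gk_sub (lam : ℝ) (k n : ℕ) : Gk lam k n ⊆ Hk lam k := fun _ h =>
  ⟨h.1, h.2.trans_le (le_iSup (fun n => vv lam n _) n)⟩

lemma meas_Gk (lam : ℝ) (k n : ℕ) : MeasurableSet (Gk lam k n) :=
  measurableSet_Ioo.inter (measurableSet_lt measurable_const (meas_vv lam n))

lemma meas_Hk (lam : ℝ) (k : ℕ) : MeasurableSet (Hk lam k) :=
  measurableSet_Ioo.inter (measurableSet_lt measurable_const (meas_Vs lam))

lemma pos_pt (h2 : S_key) {lam : ℝ} (hlam : lam ∈ Icc (1 : ℝ) (3 / 2)) {C : ℝ≥0∞}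
    (hC : ∀ n τ, (TT lam)^[n] (ind lam) τ ≤ C) (r n k : ℕ) (τ : ℝ) :
    (TT lam)^[n + r] (ind lam) τ ≤ (Gk lam k n).indicator (fun _ => C) τ + C * RR lam r n τ +
      (Ioo (0 : ℝ) (LL lam)).indicator (fun _ => (2 : ℝ≥0∞)⁻¹ ^ r * C * k) τ := by
  have hl : 0 ≤ lam := by linarith [hlam.1]
  by_cases h1 : τ ∈ Ioo (0 : ℝ) (LL lam)
  · by_cases h3 : (k : ℝ≥0∞) < vv lam n τ
    · have h4 : τ ∈ Gk lam k n := ⟨h1, h3⟩
      rw [indicator_of_mem h4]
      exact (hC _ τ).trans (le_self_add.trans le_self_add)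
    · refine (h2 lam hlam C hC r n τ).trans ?_
      rw [indicator_of_mem h1]
      refine add_le_add le_add_self (mul_le_mul_right (not_lt.1 h3) _)
  · rw [van_iter hl (van_ind lam) _ τ h1]
    exact zero_le

lemma lint_ind (lam : ℝ) : ∫⁻ τ, ind lam τ = ENNReal.ofReal (LL lam) := by
  show ∫⁻ τ, (Ioo (0 : ℝ) (LL lam)).indicator (fun _ => (1 : ℝ≥0∞)) τ = _
  rw [lintegral_indicator measurableSet_Ioo, setLIntegral_const, Real.volume_Ioo, one_mul, sub_zero]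

lemma pos_int (h : S_tin) (h2 : S_key) {lam : ℝ} (hlam : lam ∈ Icc (1 : ℝ) (3 / 2)) {C : ℝ≥0∞}
    (hC : ∀ n τ, (TT lam)^[n] (ind lam) τ ≤ C) (r n k : ℕ) :
    ENNReal.ofReal (LL lam) ≤ C * volume (Gk lam k n) + C * (∫⁻ τ, RR lam r n τ) +
      (2 : ℝ≥0∞)⁻¹ ^ r * C * k * ENNReal.ofReal (LL lam) := by
  have h3 := lintegral_mono (μ := volume) (pos_pt h2 hlam hC r n k)
  rw [lint_iter h lam (meas_ind lam), lint_ind, lintegral_add_left, lintegral_add_left,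
    lintegral_indicator (meas_Gk lam k n), setLIntegral_const,
    lintegral_const_mul _ (meas_RR lam r n), lintegral_indicator measurableSet_Ioo,
    setLIntegral_const, Real.volume_Ioo, sub_zero] at h3
  · exact h3
  · exact measurable_const.indicator (meas_Gk lam k n)
  · exact (measurable_const.indicator (meas_Gk lam k n)).add ((meas_RR lam r n).const_mul _)

lemma pos_k (h : S_tin) (h1 : S_dec) (h2 : S_key) {lam : ℝ} (hlam : lam ∈ Icc (1 : ℝ) (3 / 2))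
    {C : ℝ≥0∞} (hCt : C ≠ ⊤) (hC : ∀ n τ, (TT lam)^[n] (ind lam) τ ≤ C) (k : ℕ) :
    ENNReal.ofReal (LL lam) / 2 ≤ C * volume (Hk lam k) := by
  have hL := LL_gt hlam.1
  set L := ENNReal.ofReal (LL lam) with hLdef
  have hL0 : L ≠ 0 := by
    rw [hLdef, Ne, ENNReal.ofReal_eq_zero]
    linarith
  have hLt : L ≠ ⊤ := ENNReal.ofReal_ne_top
  have hq0 : L / 4 ≠ 0 := by
    rw [Ne, ENNReal.div_eq_zero_iff]
    push Not
    exact ⟨hL0, by simp⟩
  -- the choice of `r`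
  have hr : ∃ r : ℕ, (2 : ℝ≥0∞)⁻¹ ^ r * C * k * L ≤ L / 4 := by
    have h3 : Tendsto (fun r : ℕ => (2 : ℝ≥0∞)⁻¹ ^ r * (C * k * L)) atTop (𝓝 (0 * (C * k * L))) := by
      refine ENNReal.Tendsto.mul_const (ENNReal.tendsto_pow_atTop_nhds_zero_of_lt_one ?_) (Or.inr ?_)
      · exact ENNReal.inv_lt_one.2 (by norm_num)
      · exact ENNReal.mul_ne_top (ENNReal.mul_ne_top hCt (ENNReal.natCast_ne_top k)) hLt
    rw [zero_mul] at h3
    obtain ⟨r, hr⟩ := (h3.eventually (ge_mem_nhds (pos_iff_ne_zero.2 hq0))).exists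
    refine ⟨r, le_trans (le_of_eq ?_) hr⟩
    ring
  obtain ⟨r, hr⟩ := hr
  -- the choice of `n`
  have hn : ∃ n : ℕ, C * (∫⁻ τ, RR lam r n τ) ≤ L / 4 := by
    have h3 : Tendsto (fun n : ℕ => C * ∫⁻ τ, RR lam r n τ) atTop (𝓝 (C * 0)) :=
      ENNReal.Tendsto.const_mul (h1 lam hlam r) (Or.inr hCt)
    rw [mul_zero] at h3
    exact (h3.eventually (ge_mem_nhds (pos_iff_ne_zero.2 hq0))).exists
  obtain ⟨n, hn⟩ := hn
  have h3 := pos_int h h2 hlam hC r n k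
  rw [← hLdef] at h3
  have h4 : L / 2 + L / 2 ≤ C * volume (Hk lam k) + L / 2 := by
    rw [ENNReal.add_halves]
    refine h3.trans ?_
    rw [add_assoc]
    refine add_le_add (mul_le_mul_right (measure_mono (Gk_sub lam k n)) _) ?_
    refine (add_le_add hn hr).trans (le_of_eq ?_)
    rw [← ENNReal.add_div, ← two_mul, show (4 : ℝ≥0∞) = 2 * 2 by norm_num]
    exact ENNReal.mul_div_mul_left _ _ (by norm_num) (by norm_num)
  have h5 : L / 2 ≠ ⊤ := ENNReal.div_ne_top hLt (by norm_num)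
  exact (ENNReal.add_le_add_iff_right h5).1 h4

theorem pos (h : S_tin) (h1 : S_dec) (h2 : S_key) : S_pos := by
  intro lam hlam C hCt hC
  have hL := LL_gt hlam.1
  have e1 : {τ | τ ∈ Ioo (0 : ℝ) (LL lam) ∧ Vs lam τ = ⊤} = ⋂ k : ℕ, Hk lam k := by
    ext τ
    rw [mem_iInter]
    constructor
    · rintro ⟨h3, h4⟩ k
      refine ⟨h3, ?_⟩
      rw [h4]
      exact ENNReal.natCast_lt_top k
    · intro h3
      refine ⟨(h3 0).1, ?_⟩
      by_contra h4
      obtain ⟨k, hk⟩ := ENNReal.exists_nat_gt h4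
      exact absurd (h3 k).2 (not_lt.2 hk.le)
  have hanti : Antitone (Hk lam) := by
    intro k k' hk τ h3
    refine ⟨h3.1, lt_of_le_of_lt ?_ h3.2⟩
    exact_mod_cast hk
  have hfin : volume (Hk lam 0) ≠ ⊤ := by
    refine ne_top_of_le_ne_top ?_ (measure_mono (fun τ (h3 : τ ∈ Hk lam 0) => h3.1))
    rw [Real.volume_Ioo]
    exact ENNReal.ofReal_ne_top
  rw [e1, hanti.measure_iInter (fun k => (meas_Hk lam k).nullMeasurableSet) ⟨0, hfin⟩]
  have h5 : (ENNReal.ofReal (LL lam) / 2) / C ≤ ⨅ k, volume (Hk lam k) :=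
    le_iInf fun k => ENNReal.div_le_of_le_mul' (pos_k h h1 h2 hlam hCt hC k)
  refine lt_of_lt_of_le ?_ h5
  rw [pos_iff_ne_zero, Ne, ENNReal.div_eq_zero_iff, ENNReal.div_eq_zero_iff]
  push Not
  refine ⟨⟨?_, by simp⟩, hCt⟩
  rw [Ne, ENNReal.ofReal_eq_zero]
  linarith

end Pool.Agent.Q299.PS
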