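import Mathlib
import Pool.Agent.Q82.QD.Stm

/-! Project QD (helper82): job ASY2, bounds of `H`. -/

set_option autoImplicit false

open MeasureTheory Filter Topology Real Set

namespace Pool.Agent.Q82.QD

variable {F : ℝ → ℝ}

theorem asy2_fle (hF : Prof F) {s : ℝ} (hs : 0 ≤ s) :
    6 * Real.exp (4 * F s) ≤ 96 / (1 + s) ^ 4 := by
  have h1 := hF.2.2 s hs
  have hq : 0 ≤ qq * s := by unfold qq; positivity
  have h2 : Real.exp (4 * F s) ≤ Real.exp (4 * (Real.log 2 - Real.log (1 + s))) := by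
    apply Real.exp_le_exp.2
    linarith
  have h3 : Real.exp (4 * (Real.log 2 - Real.log (1 + s))) = (2 / (1 + s)) ^ 4 := by
    rw [show 4 * (Real.log 2 - Real.log (1 + s)) = ((4 : ℕ) : ℝ) * (Real.log 2 - Real.log (1 + s))
      by norm_num, Real.exp_nat_mul, Real.exp_sub, Real.exp_log (by norm_num),
      Real.exp_log (by linarith)]
  rw [h3, div_pow] at h2
  calc 6 * Real.exp (4 * F s) ≤ 6 * (2 ^ 4 / (1 + s) ^ 4) := by linarith
    _ = 96 / (1 + s) ^ 4 := by ring

theorem asy2_cont (hF : Prof F) : Continuous fun s => s * (6 * Real.exp (4 * F s)) := by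
  have := hF.1
  fun_prop

theorem asy2_MMc (hF : Prof F) : Continuous (MM F) :=
  intervalIntegral.continuous_primitive (fun a b => (asy2_cont hF).intervalIntegrable a b) 0

theorem asy2_MMmono (hF : Prof F) {s t : ℝ} (hs : 0 ≤ s) (hst : s ≤ t) : MM F s ≤ MM F t := by
  have h := intervalIntegral.integral_interval_sub_left
    ((asy2_cont hF).intervalIntegrable 0 t) ((asy2_cont hF).intervalIntegrable (μ := volume) 0 s)
  have h2 : 0 ≤ ∫ x in s..t, x * (6 * Real.exp (4 * F x)) := by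
    apply intervalIntegral.integral_nonneg hst
    intro u hu
    have : 0 ≤ u := hs.trans hu.1
    positivity
  unfold MM
  linarith

theorem asy2_MM0 (hF : Prof F) {t : ℝ} (ht : 0 ≤ t) : 0 ≤ MM F t := by
  have := asy2_MMmono hF le_rfl ht
  have h0 : MM F 0 = 0 := by unfold MM; simp
  linarith

theorem asy2_MMle (hF : Prof F) {t : ℝ} (ht : 0 ≤ t) : MM F t ≤ 96 := by
  have hd : ∀ x ∈ uIcc 0 t, HasDerivAt (fun x : ℝ => -96 * (1 + x)⁻¹) (96 / (1 + x) ^ 2) x := by
    intro x hx
    rw [uIcc_of_le ht] at hx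
    have hx0 : (1 + x) ≠ 0 := by have := hx.1; positivity
    have h1 : HasDerivAt (fun x : ℝ => 1 + x) 1 x := (hasDerivAt_id x).const_add 1
    have h2 : HasDerivAt (fun x : ℝ => -96 * (1 + x)⁻¹) (-96 * (-1 / (1 + x) ^ 2)) x :=
      (h1.inv hx0).const_mul (-96 : ℝ)
    have h3 : (96 / (1 + x) ^ 2 : ℝ) = -96 * (-1 / (1 + x) ^ 2) := by ring
    rw [h3]
    exact h2
  have hc : ContinuousOn (fun x : ℝ => 96 / (1 + x) ^ 2) (uIcc 0 t) := by
    rw [uIcc_of_le ht]
    apply ContinuousOn.div continuousOn_const (by fun_prop)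
    intro x hx
    have := hx.1
    positivity
  have h3 := intervalIntegral.integral_eq_sub_of_hasDerivAt hd hc.intervalIntegrable
  have h4 : MM F t ≤ ∫ x in (0 : ℝ)..t, 96 / (1 + x) ^ 2 := by
    apply intervalIntegral.integral_mono_on ht ((asy2_cont hF).intervalIntegrable 0 t)
      hc.intervalIntegrable
    intro x hx
    have h5 := asy2_fle hF hx.1
    have h6 : x * (6 * Real.exp (4 * F x)) ≤ x * (96 / (1 + x) ^ 4) :=
      mul_le_mul_of_nonneg_left h5 hx.1
    refine h6.trans ?_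
    have h0 := hx.1
    rw [← mul_div_assoc, div_le_div_iff₀ (by positivity) (by positivity)]
    have h7 : x ≤ (1 + x) ^ 2 := by nlinarith
    have h8 : (1 + x) ^ 4 = (1 + x) ^ 2 * (1 + x) ^ 2 := by ring
    rw [h8]
    have h9 : 0 ≤ (1 + x) ^ 2 := by positivity
    nlinarith [mul_le_mul_of_nonneg_right h7 h9]
  rw [h3] at h4
  have h10 : 0 < (1 + t)⁻¹ := by positivity
  have h11 : (-96 : ℝ) * (1 + t)⁻¹ - -96 * (1 + 0)⁻¹ ≤ 96 := by
    norm_num
    linarith
  exact h4.trans h11

theorem asy2_sq {t : ℝ} (ht : 0 < t) (c : ℝ) :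
    IntegrableOn (fun x : ℝ => c / (4 * x ^ 2)) (Ioi t) ∧
      ∫ x in Ioi t, c / (4 * x ^ 2) = c / (4 * t) := by
  have h1 := integrableOn_Ioi_rpow_of_lt (by norm_num : (-2 : ℝ) < -1) ht
  have h2 := integral_Ioi_rpow_of_lt (by norm_num : (-2 : ℝ) < -1) ht
  have h3 : EqOn (fun x : ℝ => c / 4 * x ^ (-2 : ℝ)) (fun x : ℝ => c / (4 * x ^ 2)) (Ioi t) := by
    intro x hx
    have hx0 : 0 < x := ht.trans hx
    simp only
    rw [Real.rpow_neg hx0.le, Real.rpow_two]
    field_simp
  constructor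
  · exact (integrableOn_congr_fun h3 measurableSet_Ioi).1 (h1.const_mul (c / 4))
  · rw [← setIntegral_congr_fun measurableSet_Ioi h3, integral_const_mul, h2]
    have h4 : t ^ (-2 + 1 : ℝ) = t⁻¹ := by
      rw [show (-2 + 1 : ℝ) = -1 by norm_num, Real.rpow_neg_one]
    rw [h4]
    field_simp
    norm_num

theorem asy2_int (hF : Prof F) {t : ℝ} (ht : 0 < t) :
    IntegrableOn (fun x : ℝ => MM F x / (4 * x ^ 2)) (Ioi t) := by
  refine Integrable.mono' (asy2_sq ht 96).1 ?_ ?_
  · have hm : Measurable (fun x : ℝ => MM F x / (4 * x ^ 2)) :=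
      (asy2_MMc hF).measurable.div (by fun_prop)
    exact hm.aestronglyMeasurable
  · filter_upwards [ae_restrict_mem measurableSet_Ioi] with x hx
    have hx0 : 0 < x := ht.trans hx
    have h0 := asy2_MM0 hF hx0.le
    rw [Real.norm_of_nonneg (by positivity)]
    exact div_le_div_of_nonneg_right (asy2_MMle hF hx0.le) (by positivity)

theorem asy2_R0 (hF : Prof F) {t : ℝ} (ht : 0 < t) : 0 ≤ Rr F t := by
  apply setIntegral_nonneg measurableSet_Ioi
  intro x hx
  have hx0 : 0 < x := ht.trans hx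
  have h0 := asy2_MM0 hF hx0.le
  positivity

theorem asy2_Rle (hF : Prof F) {t : ℝ} (ht : 0 < t) : Rr F t ≤ 24 / t := by
  have h1 : Rr F t ≤ ∫ x in Ioi t, 96 / (4 * x ^ 2) := by
    apply setIntegral_mono_on (asy2_int hF ht) (asy2_sq ht 96).1 measurableSet_Ioi
    intro x hx
    have hx0 : 0 < x := ht.trans hx
    exact div_le_div_of_nonneg_right (asy2_MMle hF hx0.le) (by positivity)
  rw [(asy2_sq ht 96).2] at h1
  refine h1.trans (le_of_eq ?_)
  field_simp
  norm_num

theorem asy2_Rge (hF : Prof F) (h9 : 9 ≤ MM F 2) {t : ℝ} (ht : 2 ≤ t) :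
    9 / (4 * t) ≤ Rr F t := by
  have ht0 : 0 < t := by linarith
  have h1 : ∫ x in Ioi t, 9 / (4 * x ^ 2) ≤ Rr F t := by
    apply setIntegral_mono_on (asy2_sq ht0 9).1 (asy2_int hF ht0) measurableSet_Ioi
    intro x hx
    have hx0 : 0 < x := ht0.trans hx
    have h2 : 9 ≤ MM F x := h9.trans (asy2_MMmono hF (by norm_num) (ht.trans (le_of_lt hx)))
    exact div_le_div_of_nonneg_right h2 (by positivity)
  rwa [(asy2_sq ht0 9).2] at h1

theorem asy2_anti (hF : Prof F) : AntitoneOn (Rr F) (Ioi 0) := by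
  intro s hs t _ hst
  apply setIntegral_mono_set (asy2_int hF hs)
  · filter_upwards [ae_restrict_mem measurableSet_Ioi] with x hx
    have hx0 : 0 < x := lt_trans hs hx
    have h0 := asy2_MM0 hF hx0.le
    change 0 ≤ MM F x / (4 * x ^ 2)
    positivity
  · exact (Ioi_subset_Ioi hst).eventuallyLE

theorem asy2_bd (hF : Prof F) {t : ℝ} (ht : 0 < t) : 0 ≤ t / 4 * Rr F t ∧ t / 4 * Rr F t ≤ 6 := by
  constructor
  · have := asy2_R0 hF ht
    positivity
  · have h1 := mul_le_mul_of_nonneg_left (asy2_Rle hF ht) (by positivity : 0 ≤ t / 4)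
    refine h1.trans (le_of_eq ?_)
    field_simp
    norm_num

theorem asy2_ii (hF : Prof F) {s : ℝ} (hs : 0 ≤ s) :
    IntervalIntegrable (fun t => t / 4 * Rr F t) volume 0 s := by
  rw [intervalIntegrable_iff_integrableOn_Ioc_of_le hs]
  have hm : AEMeasurable (Rr F) (volume.restrict (Ioi (0 : ℝ))) :=
    aemeasurable_restrict_of_antitoneOn measurableSet_Ioi (asy2_anti hF)
  have hm2 : AEMeasurable (Rr F) (volume.restrict (Ioc (0 : ℝ) s)) :=
    hm.mono_measure (Measure.restrict_mono Ioc_subset_Ioi_self le_rfl)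
  have hm3 : AEStronglyMeasurable (fun t => t / 4 * Rr F t) (volume.restrict (Ioc (0 : ℝ) s)) :=
    ((measurable_id.div_const 4).aemeasurable.mul hm2).aestronglyMeasurable
  refine (integrable_const (6 : ℝ)).mono' hm3 ?_
  filter_upwards [ae_restrict_mem measurableSet_Ioc] with t ht
  have := asy2_bd hF ht.1
  rw [Real.norm_of_nonneg this.1]
  exact this.2

theorem asy2 : S_ASY2 := by
  intro F hF h9
  have hup : ∀ s, 0 < s → ∫ t in (0 : ℝ)..s, t / 4 * Rr F t ≤ 6 * s := by
    intro s hs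
    have h1 : ∫ t in (0 : ℝ)..s, t / 4 * Rr F t ≤ ∫ _t in (0 : ℝ)..s, (6 : ℝ) := by
      apply intervalIntegral.integral_mono_on_of_le_Ioo hs.le (asy2_ii hF hs.le)
        (by simp)
      intro x hx
      exact (asy2_bd hF hx.1).2
    rw [intervalIntegral.integral_const] at h1
    simpa [mul_comm] using h1
  have hlo : ∀ s, 0 < s → 0 ≤ ∫ t in (0 : ℝ)..s, t / 4 * Rr F t := by
    intro s hs
    have h1 : ∫ _t in (0 : ℝ)..s, (0 : ℝ) ≤ ∫ t in (0 : ℝ)..s, t / 4 * Rr F t := by
      apply intervalIntegral.integral_mono_on_of_le_Ioo hs.le (by simp) (asy2_ii hF hs.le)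
      intro x hx
      exact (asy2_bd hF hx.1).1
    simpa using h1
  refine ⟨fun s hs => ⟨?_, ?_⟩, fun s hs => ?_⟩
  · exact mul_nonneg (by positivity) (hlo s hs)
  · have h1 := mul_le_mul_of_nonneg_left (hup s hs) (by positivity : 0 ≤ (s ^ 2)⁻¹)
    refine h1.trans (le_of_eq ?_)
    field_simp
  · have hs0 : 0 < s := by linarith
    have hsub : IntervalIntegrable (fun t => t / 4 * Rr F t) volume 0 2 := asy2_ii hF (by norm_num)
    have hsub2 : IntervalIntegrable (fun t => t / 4 * Rr F t) volume 2 s :=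
      hsub.symm.trans (asy2_ii hF hs0.le)
    have h1 := intervalIntegral.integral_add_adjacent_intervals hsub hsub2
    have h2 := hlo 2 (by norm_num)
    have h3 : ∫ _t in (2 : ℝ)..s, (9 / 16 : ℝ) ≤ ∫ t in (2 : ℝ)..s, t / 4 * Rr F t := by
      apply intervalIntegral.integral_mono_on (by linarith) (by simp) hsub2
      intro x hx
      have hx0 : 0 < x := by linarith [hx.1]
      have h4 := mul_le_mul_of_nonneg_left (asy2_Rge hF h9 hx.1) (by positivity : 0 ≤ x / 4)
      refine le_trans (le_of_eq ?_) h4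
      field_simp
      norm_num
    rw [intervalIntegral.integral_const] at h3
    have h5 : (s - 2) * (9 / 16) ≤ ∫ t in (0 : ℝ)..s, t / 4 * Rr F t := by
      rw [← h1]
      have : (s - 2) • (9 / 16 : ℝ) = (s - 2) * (9 / 16) := rfl
      rw [this] at h3
      linarith
    have h6 := mul_le_mul_of_nonneg_left h5 (by positivity : 0 ≤ (s ^ 2)⁻¹)
    refine le_trans ?_ h6
    rw [← div_eq_inv_mul, div_le_div_iff₀ (by positivity) (by positivity)]
    nlinarith

end Pool.Agent.Q82.QD
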