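import Mathlib
import Pool.Agent.Q82.QD.Stm

/-! Project QD (helper82): job DAT, the behaviour of the profile at infinity. -/

set_option autoImplicit false

open MeasureTheory Filter Topology Real Set

namespace Pool.Agent.Q82.QD

theorem dat (h1 : S_MF) (h2 : S_ASY1) (h3 : S_ASY2) (h4 : S_ASY3) (_h5 : S_SMF) : S_DAT := by
  intro F hF
  obtain ⟨a, ha⟩ := h2 F hF
  obtain ⟨hH, hH18⟩ := h3 F hF (h1 F hF)
  obtain ⟨C3, hC3, hj⟩ := h4 F hF
  -- the function Z
  have hZ : ∀ s : ℝ, 0 < s → HasDerivAt (fun s => F s + a * s) (-(Hh F s)) s := by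
    intro s hs
    have h := (ha s hs).add ((hasDerivAt_id s).const_mul a)
    have e : -(a + Hh F s) + a * 1 = -(Hh F s) := by ring
    rw [e] at h
    exact h
  set Z : ℝ → ℝ := fun s => F s + a * s with hZdef
  have hanti : AntitoneOn Z (Ici 1) := by
    apply antitoneOn_of_deriv_nonpos (convex_Ici 1)
    · intro s hs
      exact (hZ s (lt_of_lt_of_le one_pos hs)).continuousAt.continuousWithinAt
    · intro s hs
      rw [interior_Ici] at hs
      exact (hZ s (one_pos.trans hs)).differentiableAt.differentiableWithinAt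
    · intro s hs
      rw [interior_Ici] at hs
      rw [(hZ s (one_pos.trans hs)).deriv]
      linarith [(hH s (one_pos.trans hs)).1]
  have hmono : MonotoneOn (fun s => Z s + 6 * Real.log s) (Ici 1) := by
    have hd : ∀ s : ℝ, 0 < s → HasDerivAt (fun s => Z s + 6 * Real.log s) (-(Hh F s) + 6 * s⁻¹) s :=
      fun s hs => (hZ s hs).add ((Real.hasDerivAt_log hs.ne').const_mul 6)
    apply monotoneOn_of_deriv_nonneg (convex_Ici 1)
    · intro s hs
      exact (hd s (lt_of_lt_of_le one_pos hs)).continuousAt.continuousWithinAt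
    · intro s hs
      rw [interior_Ici] at hs
      exact (hd s (one_pos.trans hs)).differentiableAt.differentiableWithinAt
    · intro s hs
      rw [interior_Ici] at hs
      rw [(hd s (one_pos.trans hs)).deriv]
      have := (hH s (one_pos.trans hs)).2
      rw [div_eq_mul_inv] at this
      linarith
  have hanti2 : AntitoneOn (fun s => Z s + 1 / 2 * Real.log s) (Ici 18) := by
    have hd : ∀ s : ℝ, 0 < s → HasDerivAt (fun s => Z s + 1 / 2 * Real.log s)
        (-(Hh F s) + 1 / 2 * s⁻¹) s :=
      fun s hs => (hZ s hs).add ((Real.hasDerivAt_log hs.ne').const_mul (1 / 2))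
    have h18 : (0 : ℝ) < 18 := by norm_num
    apply antitoneOn_of_deriv_nonpos (convex_Ici 18)
    · intro s hs
      exact (hd s (lt_of_lt_of_le h18 hs)).continuousAt.continuousWithinAt
    · intro s hs
      rw [interior_Ici] at hs
      exact (hd s (h18.trans hs)).differentiableAt.differentiableWithinAt
    · intro s hs
      rw [interior_Ici] at hs
      rw [(hd s (h18.trans hs)).deriv]
      have h6 := hH18 s (le_of_lt hs)
      have h7 : 1 / (2 * s) = 1 / 2 * s⁻¹ := by
        rw [one_div, mul_inv, one_div]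
      rw [h7] at h6
      linarith
  have hup1 : ∀ s, 1 ≤ s → Z s ≤ Z 1 := fun s hs => hanti self_mem_Ici hs hs
  have hlo1 : ∀ s, 1 ≤ s → Z 1 - 6 * Real.log s ≤ Z s := by
    intro s hs
    have := hmono (self_mem_Ici : (1 : ℝ) ∈ Ici 1) hs hs
    simp only [Real.log_one, mul_zero, add_zero] at this
    linarith
  have hl18 : 0 ≤ Real.log 18 := Real.log_nonneg (by norm_num)
  have hup2 : ∀ s, 1 ≤ s → Z s ≤ |Z 1| + 1 / 2 * Real.log 18 - 1 / 2 * Real.log s := by
    intro s hs
    rcases le_total s 18 with h | h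
    · have h6 : Real.log s ≤ Real.log 18 := Real.log_le_log (by linarith) h
      have := hup1 s hs
      have := le_abs_self (Z 1)
      linarith
    · have h6 := hanti2 (self_mem_Ici : (18 : ℝ) ∈ Ici 18) h h
      simp only at h6
      have := hup1 18 (by norm_num)
      have := le_abs_self (Z 1)
      linarith
  -- positivity of `a`
  have hapos : 0 < a := by
    by_contra hcon
    have hcon' : a ≤ 0 := not_lt.1 hcon
    have hq : (0 : ℝ) < qq := by unfold qq; norm_num
    have e1 := Real.isLittleO_log_id_atTop.bound (by positivity : 0 < qq / 12)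
    have e2 : ∀ᶠ s : ℝ in atTop, Real.log 2 + |Z 1| < qq / 2 * s := by
      have : Tendsto (fun s : ℝ => qq / 2 * s) atTop atTop :=
        tendsto_id.const_mul_atTop (by positivity)
      exact this.eventually_gt_atTop _
    obtain ⟨s, hs1, hs2, hs3⟩ := (e1.and (e2.and (eventually_ge_atTop (1 : ℝ)))).exists
    have hs0 : 0 < s := by linarith
    rw [Real.norm_of_nonneg (Real.log_nonneg hs3), id, Real.norm_of_nonneg hs0.le] at hs1
    have h6 := hF.2.2 s hs0.le
    have h7 : 0 ≤ Real.log (1 + s) := Real.log_nonneg (by linarith)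
    have h8 := hlo1 s hs3
    have h9 : Z s = F s + a * s := rfl
    have h10 := neg_abs_le (Z 1)
    have h11 : a * s ≤ 0 := mul_nonpos_of_nonpos_of_nonneg hcon' hs0.le
    have h12 : qq / 12 * s * 6 = qq / 2 * s := by ring
    have h13 : qq / 2 * s + qq / 2 * s = qq * s := by ring
    linarith
  have hC : 0 < |Z 1| + 1 / 2 * Real.log 18 + 6 + C3 := by positivity
  refine ⟨a, |Z 1| + 1 / 2 * Real.log 18 + 6 + C3, hF, hapos, hC, ?_, ?_, ?_⟩
  · intro s hs
    have := hup2 s hs
    change Z s ≤ _
    linarith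
  · intro s hs
    change |Z s| ≤ _
    have hls : 0 ≤ Real.log s := Real.log_nonneg hs
    have h6 := hup1 s hs
    have h7 := hlo1 s hs
    have h8 := le_abs_self (Z 1)
    have h9 := neg_abs_le (Z 1)
    have h10 : |Z s| ≤ |Z 1| + 6 * Real.log s := by
      rw [abs_le]
      constructor <;> linarith
    refine h10.trans ?_
    have h11 : 0 ≤ (|Z 1| + 1 / 2 * Real.log 18 + C3) * Real.log s := by positivity
    nlinarith
  · intro j hj1 hj4 s hs
    have hs0 : 0 < s := by linarith
    obtain ⟨i, rfl⟩ : ∃ i, j = i + 1 := ⟨j - 1, by omega⟩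
    change |iteratedDeriv (i + 1) Z s| ≤ _
    have h6 : deriv Z =ᶠ[𝓝 s] fun t => -(Hh F t) := by
      filter_upwards [Ioi_mem_nhds hs0] with t ht
      exact (hZ t ht).deriv
    rw [iteratedDeriv_succ', h6.iteratedDeriv_eq, iteratedDeriv_fun_neg, abs_neg]
    refine (hj i (by omega) s hs).trans ?_
    apply div_le_div_of_nonneg_right _ (by positivity)
    have := abs_nonneg (Z 1)
    linarith

end Pool.Agent.Q82.QD
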